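import Pool.Agent.Helper30_Dua.Pp

/-!
# Poincaré duality for homology sphere nerves: cocycles are limits of coboundaries
-/

namespace Pool.Agent.Sph.H30

open Pool.Agent.Helper30L2
open scoped ENNReal InnerProductSpace

set_option linter.unusedSectionVars false

noncomputable section

variable {V : Type*} [DecidableEq V] [Fintype V]

section twist

variable {G : Type*} [Group G] (χ : G →* ℤˣ)

/-- The sign character as a complex number. -/
def xc (g : G) : ℂ := ((χ g : ℤ) : ℂ)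

theorem xc_mul (g h : G) : xc χ (g * h) = xc χ g * xc χ h := by
  unfold xc
  rw [map_mul]
  push_cast
  ring

theorem xc_sq (g : G) : xc χ g * xc χ g = 1 := by
  unfold xc
  rcases Int.units_eq_one_or (χ g) with h | h <;> simp [h]

theorem xc_conj (g : G) : (starRingEnd ℂ) (xc χ g) = xc χ g := by
  unfold xc
  exact map_intCast (starRingEnd ℂ) _

theorem norm_xc (g : G) : ‖xc χ g‖ ≤ 1 := by
  unfold xc
  rcases Int.units_eq_one_or (χ g) with h | h <;> simp [h]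

/-- Multiplication with the sign character. -/
def Xt (I : Type*) : Hil (G × I) →L[ℂ] Hil (G × I) :=
  wmap (fun p => p) (fun p => xc χ p.1) (fun p => norm_xc χ p.1) (fun _ _ _ _ h => h)

theorem Xt_apply {I : Type*} (x : Hil (G × I)) (g : G) (i : I) :
    Xt χ I x (g, i) = xc χ g * x (g, i) := by
  unfold Xt
  rw [wmap_apply]

theorem Xt_Xt {I : Type*} (x : Hil (G × I)) : Xt χ I (Xt χ I x) = x := by
  apply Hil.ext'
  rintro ⟨g, i⟩
  rw [Xt_apply, Xt_apply, ← mul_assoc, xc_sq, one_mul]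

theorem inner_Xt {I : Type*} (x y : Hil (G × I)) : ⟪Xt χ I x, y⟫_ℂ = ⟪x, Xt χ I y⟫_ℂ := by
  rw [Hil.inner_eq, Hil.inner_eq]
  refine tsum_congr ?_
  rintro ⟨g, i⟩
  rw [Xt_apply, Xt_apply, map_mul, xc_conj]
  ring

variable {s : V → G} {Γ : SimpleGraph V} {S : Finset V}

theorem Xt_Dd (ε : Sgn V) (x : Hil (G × Finset V)) :
    Xt χ (Finset V) (Dd ε S x) = Dd ε S (Xt χ (Finset V) x) := by
  apply Hil.ext'
  rintro ⟨g, T⟩
  rw [Xt_apply, Dd_apply, Dd_apply, Finset.mul_sum]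
  refine Finset.sum_congr rfl fun v _ => ?_
  rw [Xt_apply]
  ring

theorem Xt_CP (hχ : ∀ v, χ (s v) = -1) {j : ℤ} {x : Hil (G × Finset V)}
    (hx : x ∈ CP Γ s S j) : Xt χ (Finset V) x ∈ Cc Γ s S j := by
  rw [mem_Cc]
  rw [mem_CP] at hx
  constructor
  · intro g T h
    rw [Xt_apply, hx.1 g T h, mul_zero]
  · intro g T t ht
    rw [Xt_apply, Xt_apply, xc_mul, hx.2 g T t ht]
    have : xc χ (s t) = -1 := by
      unfold xc
      rw [hχ]
      simp
    rw [this]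
    ring

theorem Xt_Cc (hχ : ∀ v, χ (s v) = -1) {j : ℤ} {x : Hil (G × Finset V)}
    (hx : x ∈ Cc Γ s S j) : Xt χ (Finset V) x ∈ CP Γ s S j := by
  rw [mem_Cc] at hx
  rw [mem_CP]
  constructor
  · intro g T h
    rw [Xt_apply, hx.1 g T h, mul_zero]
  · intro g T t ht
    rw [Xt_apply, Xt_apply, xc_mul, hx.2 g T t ht]
    have : xc χ (s t) = -1 := by
      unfold xc
      rw [hχ]
      simp
    rw [this]
    ring

end twist

theorem exists_chi (Γ : SimpleGraph V) : ∃ χ : (cm Γ).Group →* ℤˣ, ∀ v, χ (gn Γ v) = -1 :=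
  exists_hom (cc Γ) (fun _ => (-1 : ℤˣ)) (fun _ => by simp) (fun _ _ _ => rfl)

/-- If there is no harmonic chain in degree `j` then every invariant cocycle is a limit of
coboundaries. -/
theorem cocycle_closure {Γ : SimpleGraph V} {S : Finset V} {ε : Sgn V}
    (hre : ∀ v T, (starRingEnd ℂ) (ε.ε v T) = ε.ε v T) {j : ℤ} (hb : bb ε Γ S j = 0)
    {y : Hil ((cm Γ).Group × Finset V)} (hy : y ∈ CP Γ (gn Γ) S j)
    (hc : ∀ c ∈ CP Γ (gn Γ) S (j + 1), ⟪Dd ε S c, y⟫_ℂ = 0) :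
    y ∈ ((CP Γ (gn Γ) S (j - 1)).map
      (((pr (CP Γ (gn Γ) S j)).comp (Jd ε) :
        Hil ((cm Γ).Group × Finset V) →L[ℂ] Hil ((cm Γ).Group × Finset V)) :
        Hil ((cm Γ).Group × Finset V) →ₗ[ℂ] Hil ((cm Γ).Group × Finset V))).topologicalClosure := by
  obtain ⟨χ, hχ⟩ := exists_chi Γ
  have hcl := (CP_closed (Γ := Γ) (s := gn Γ) (S := S) j)
  rw [tc_eq, Submodule.mem_orthogonal]
  intro c hcB
  set P := pr (CP Γ (gn Γ) S j) with hP
  set c' := P c with hc'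
  have hc'm : c' ∈ CP Γ (gn Γ) S j := by
    have := pr_mem (CP Γ (gn Γ) S j) c
    rw [IsClosed.submodule_topologicalClosure_eq hcl] at this
    exact this
  have h1 : ⟪c, y⟫_ℂ = ⟪c', y⟫_ℂ := by
    have h2 : P y = y := pr_eq_self' hy
    rw [hc', inner_pr, ← hP, h2]
  rw [h1]
  have h3 : Dd ε S c' = 0 := by
    rw [← inner_self_eq_zero (𝕜 := ℂ)]
    have hw : Dd ε S c' ∈ CP Γ (gn Γ) S (j - 1) := Dd_CP ε (by rwa [sub_add_cancel])
    have h4 := (Submodule.mem_orthogonal _ _).mp hcB (P (Jd ε (Dd ε S c'))) ⟨_, hw, rfl⟩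
    rw [inner_pr, ← hc', inner_Jd hre, Dd_univ_CP hc'm] at h4
    exact h4
  -- now use the sign character
  have h5 : Xt χ (Finset V) c' ∈ Cc Γ (gn Γ) S j := Xt_CP χ hχ hc'm
  have h6 : Dd ε S (Xt χ (Finset V) c') = 0 := by rw [← Xt_Dd, h3, map_zero]
  have h7 := pr_Hh_eq (ε := ε) h5 h6
  rw [Hh_eq_bot hb] at h7
  have h8 : pr (⊥ : Submodule ℂ (Hil ((cm Γ).Group × Finset V))) (Xt χ (Finset V) c') = 0 := by
    rw [pr_eq_zero]
    simp
  rw [h8] at h7
  have h9 : ⟪Xt χ (Finset V) c', Xt χ (Finset V) y⟫_ℂ = 0 := by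
    have e1 : Xt χ (Finset V) c' = pr (Rg ε (Cc Γ (gn Γ) S (j + 1)) S)
        (Xt χ (Finset V) c') := by
      rw [eq_comm, sub_eq_zero] at h7
      exact h7
    have h10 : Xt χ (Finset V) y ∈ (Rg ε (Cc Γ (gn Γ) S (j + 1)) S)ᗮ := by
      rw [Submodule.mem_orthogonal]
      rintro _ ⟨u, hu, rfl⟩
      change ⟪Dd ε S u, Xt χ (Finset V) y⟫_ℂ = 0
      rw [← inner_Xt, Xt_Dd]
      exact hc _ (Xt_Cc χ hχ hu)
    rw [e1, inner_pr, pr_eq_zero.mpr h10, inner_zero_right]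
  rw [inner_Xt, Xt_Xt] at h9
  exact h9

end

end Pool.Agent.Sph.H30
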