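import Pool.Agent.Helper30_Dua.Ops

/-!
# Poincaré duality for homology sphere nerves: the homotopy in the group direction
-/

namespace Pool.Agent.Sph.H30

open Pool.Agent.Helper30L2
open scoped ENNReal InnerProductSpace

set_option linter.unusedSectionVars false

noncomputable section

variable {V : Type*} [DecidableEq V] [Fintype V] {G : Type*} [Group G]
variable (ε : Sgn V) (s : V → G)

/-- Adjoining `u` to the first set. -/
def Ju (u : V) : Hil (G × I2 V) →L[ℂ] Hil (G × I2 V) :=
  Fo (K := Unit) (fun q _ => (q.1.erase u, q.2))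
    (fun q _ => if u ∈ q.1 ∧ u ∈ q.2 then ε.ε u (q.1.erase u) else 0)

theorem Ju_apply (u : V) (x : Hil (G × I2 V)) (g : G) (T U : Finset V) :
    Ju ε u x (g, (T, U)) = if u ∈ T ∧ u ∈ U then ε.ε u (T.erase u) * x (g, (T.erase u, U))
      else 0 := by
  unfold Ju
  rw [Fo_apply]
  simp

/-- The homotopy for the vertex `u`. -/
def Hu (u : V) : Hil (G × I2 V) →L[ℂ] Hil (G × I2 V) :=
  (2⁻¹ : ℂ) • (Ju ε u - (Rt (s u)).comp (Ju ε u))

theorem Hu_apply (u : V) (x : Hil (G × I2 V)) (g : G) (T U : Finset V) :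
    Hu ε s u x (g, (T, U)) = if u ∈ T ∧ u ∈ U then ε.ε u (T.erase u) *
      (2⁻¹ * (x (g, (T.erase u, U)) - x (g * s u, (T.erase u, U)))) else 0 := by
  have : Hu ε s u x = (2⁻¹ : ℂ) • (Ju ε u x - Rt (s u) (Ju ε u x)) := rfl
  rw [this, lp_smul_apply, lp_sub_apply, Rt_apply, Ju_apply, Ju_apply]
  split_ifs <;> ring

/-- The averaging operator for the vertex `u`. -/
def Ku (u : V) : Hil (G × I2 V) →L[ℂ] Hil (G × I2 V) :=
  Fo (K := Unit) (fun q _ => q) (fun q _ => if u ∈ q.2 then (if u ∈ q.1 then 0 else 2⁻¹) else 1) +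
  (Rt (s u)).comp (Fo (K := Unit) (fun q _ => q)
    (fun q _ => if u ∈ q.2 then (if u ∈ q.1 then 0 else 2⁻¹) else 0))

theorem Ku_apply (u : V) (x : Hil (G × I2 V)) (g : G) (T U : Finset V) :
    Ku s u x (g, (T, U)) = if u ∈ U then (if u ∈ T then 0 else
      2⁻¹ * (x (g, (T, U)) + x (g * s u, (T, U)))) else x (g, (T, U)) := by
  have : Ku s u x = Fo (K := Unit) (fun q _ => q)
      (fun q _ => if u ∈ q.2 then (if u ∈ q.1 then 0 else 2⁻¹) else 1) x +
      Rt (s u) (Fo (K := Unit) (fun q _ => q)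
        (fun q _ => if u ∈ q.2 then (if u ∈ q.1 then 0 else 2⁻¹) else 0) x) := rfl
  rw [this, lp_add_apply, Rt_apply, Fo_apply, Fo_apply]
  split_ifs with h1 h2
  · simp
  · simp only [Finset.univ_unique, Finset.sum_const, Finset.card_singleton, one_smul]
    ring
  · simp

variable {Γ : SimpleGraph V} {S : Finset V} {n : ℕ}

theorem Hu_mem (hs2 : ∀ v, s v * s v = 1) (hsc : ∀ v w, Γ.Adj v w → s v * s w = s w * s v)
    (u : V) {i : ℤ} {x : Hil (G × I2 V)} (hx : x ∈ TC Γ S s n i) :
    Hu ε s u x ∈ TC Γ S s n (i + 1) := by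
  rw [mem_TC] at hx ⊢
  constructor
  · intro g T U h
    rw [Hu_apply]
    split_ifs with hu
    · have h1 : ¬ (T.erase u ⊆ U ∧ okU Γ S U ∧ ((T.erase u).card : ℤ) + n - U.card = i) := by
        rintro ⟨h1, h2, h3⟩
        apply h
        have hc := Finset.card_erase_add_one hu.1
        have hc' : ((T.erase u).card : ℤ) + 1 = T.card := by exact_mod_cast hc
        refine ⟨?_, h2, by linarith⟩
        rw [← Finset.insert_erase hu.1]
        exact Finset.insert_subset hu.2 h1
      rw [hx.1 _ _ _ h1, hx.1 _ _ _ h1]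
      ring
    · rfl
  · intro g T U t ht
    rw [Hu_apply, Hu_apply]
    split_ifs with hu
    · by_cases htu : t = u
      · subst htu
        rw [mul_assoc g, hs2 t, mul_one]
        ring
      · have ht' : t ∈ T.erase u := Finset.mem_erase.mpr ⟨htu, ht⟩
        by_cases h2 : T.erase u ⊆ U ∧ okU Γ S U
        · have hadj : Γ.Adj t u := by
            apply h2.2.2
            · exact h2.1 ht'
            · exact hu.2
            · exact htu
          have e1 : g * s t * s u = g * s u * s t := by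
            rw [mul_assoc, mul_assoc, hsc t u hadj]
          rw [e1, hx.2 _ _ _ _ ht', hx.2 _ _ _ _ ht']
          ring
        · have h1 : ¬ (T.erase u ⊆ U ∧ okU Γ S U ∧ ((T.erase u).card : ℤ) + n - U.card = i) :=
            fun h => h2 ⟨h.1, h.2.1⟩
          rw [hx.1 _ _ _ h1, hx.1 _ _ _ h1, hx.1 _ _ _ h1, hx.1 _ _ _ h1]
          ring
    · rw [neg_zero]

theorem Ku_mem (hsc : ∀ v w, Γ.Adj v w → s v * s w = s w * s v)
    (u : V) {i : ℤ} {x : Hil (G × I2 V)} (hx : x ∈ TC Γ S s n i) :
    Ku s u x ∈ TC Γ S s n i := by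
  rw [mem_TC] at hx ⊢
  constructor
  · intro g T U h
    rw [Ku_apply, hx.1 _ _ _ h, hx.1 _ _ _ h]
    split_ifs <;> ring
  · intro g T U t ht
    rw [Ku_apply, Ku_apply]
    split_ifs with hu hu'
    · rw [neg_zero]
    · by_cases h2 : T ⊆ U ∧ okU Γ S U
      · have htu : t ≠ u := by
          rintro rfl
          exact hu' ht
        have hadj : Γ.Adj t u := by
          apply h2.2.2
          · exact h2.1 ht
          · exact hu
          · exact htu
        have e1 : g * s t * s u = g * s u * s t := by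
          rw [mul_assoc, mul_assoc, hsc t u hadj]
        rw [e1, hx.2 _ _ _ _ ht, hx.2 _ _ _ _ ht]
        ring
      · have h1 : ¬ (T ⊆ U ∧ okU Γ S U ∧ (T.card : ℤ) + n - U.card = i) :=
          fun h => h2 ⟨h.1, h.2.1⟩
        rw [hx.1 _ _ _ h1, hx.1 _ _ _ h1, hx.1 _ _ _ h1, hx.1 _ _ _ h1]
        ring
    · exact hx.2 _ _ _ _ ht

theorem Hu_hom (hs2 : ∀ v, s v * s v = 1) (hsc : ∀ v w, Γ.Adj v w → s v * s w = s w * s v)
    (u : V) {i : ℤ} {x : Hil (G × I2 V)} (hx : x ∈ TC Γ S s n i) :
    D1 ε (Hu ε s u x) + Hu ε s u (D1 ε x) + Ku s u x = x := by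
  have hx' := mem_TC.mp hx
  have m1 : D1 ε (Hu ε s u x) ∈ TC Γ S s n i := D1_mem ε (Hu_mem ε s hs2 hsc u hx)
  have m2 : Hu ε s u (D1 ε x) ∈ TC Γ S s n i := by
    have h1 : x ∈ TC Γ S s n (i - 1 + 1) := by rwa [sub_add_cancel]
    have := Hu_mem ε s hs2 hsc u (D1_mem ε h1)
    rwa [sub_add_cancel] at this
  have m3 : Ku s u x ∈ TC Γ S s n i := Ku_mem s hsc u hx
  apply Hil.ext'
  rintro ⟨g, T, U⟩
  rw [lp_add_apply, lp_add_apply]
  by_cases hTU : T ⊆ U ∧ okU Γ S U
  · rw [Ku_apply]
    by_cases huU : u ∈ U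
    · rw [if_pos huU]
      by_cases huT : u ∈ T
      · rw [if_pos huT, add_zero, Hu_apply, if_pos ⟨huT, huU⟩, D1_apply, D1_apply, D1_apply]
        have e0 : U \ T.erase u = insert u (U \ T) := by
          ext w
          simp only [Finset.mem_sdiff, Finset.mem_erase, Finset.mem_insert]
          constructor
          · rintro ⟨h1, h2⟩
            by_cases hw : w = u
            · exact Or.inl hw
            · exact Or.inr ⟨h1, fun h => h2 ⟨hw, h⟩⟩
          · rintro (rfl | ⟨h1, h2⟩)
            · exact ⟨huU, fun h => h.1 rfl⟩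
            · exact ⟨h1, fun h => h2 h.2⟩
        have hnot : u ∉ U \ T := fun h => (Finset.mem_sdiff.mp h).2 huT
        rw [e0, Finset.sum_insert hnot, Finset.sum_insert hnot, Finset.insert_erase huT,
          hx'.2 g T U u huT]
        have e1 : ∑ v ∈ U \ T, ε.ε v T * Hu ε s u x (g, (insert v T, U)) =
            - ∑ v ∈ U \ T, ε.ε u (T.erase u) * (2⁻¹ * (ε.ε v (T.erase u) *
              x (g, (insert v (T.erase u), U)) - ε.ε v (T.erase u) *
              x (g * s u, (insert v (T.erase u), U)))) := by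
          rw [← Finset.sum_neg_distrib]
          refine Finset.sum_congr rfl fun v hv => ?_
          rw [Finset.mem_sdiff] at hv
          have hvu : v ≠ u := by rintro rfl; exact hv.2 huT
          rw [Hu_apply, if_pos ⟨Finset.mem_insert_of_mem huT, huU⟩,
            Finset.erase_insert_of_ne hvu]
          have h3 := ε.anti u v (T.erase u) (Ne.symm hvu) (Finset.notMem_erase _ _)
            (fun h => hv.2 (Finset.mem_of_mem_erase h))
          rw [Finset.insert_erase huT] at h3
          have h4 := ε.sq u (T.erase u) (Finset.notMem_erase _ _)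
          have h5 := ε.sq v (T.erase u) (fun h => hv.2 (Finset.mem_of_mem_erase h))
          have h6 : ε.ε v T * ε.ε u (insert v (T.erase u)) =
              - (ε.ε u (T.erase u) * ε.ε v (T.erase u)) := by
            have h7 : ε.ε u (insert v (T.erase u)) = ε.ε v (T.erase u) * (ε.ε v (T.erase u) *
                ε.ε u (insert v (T.erase u))) := by
              rw [← mul_assoc, h5, one_mul]
            have h8 : ε.ε v T * ε.ε v T = 1 := ε.sq v T hv.2
            rw [h7, h3]
            linear_combination (-(ε.ε v (T.erase u)) * ε.ε u (T.erase u)) * h8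
          linear_combination (2⁻¹ * (x (g, (insert v (T.erase u), U)) -
            x (g * s u, (insert v (T.erase u), U)))) * h6
        have e2 : ∑ v ∈ U \ T, ε.ε u (T.erase u) * (2⁻¹ * (ε.ε v (T.erase u) *
              x (g, (insert v (T.erase u), U)) - ε.ε v (T.erase u) *
              x (g * s u, (insert v (T.erase u), U)))) = ε.ε u (T.erase u) * (2⁻¹ *
              (∑ v ∈ U \ T, ε.ε v (T.erase u) * x (g, (insert v (T.erase u), U)) -
              ∑ v ∈ U \ T, ε.ε v (T.erase u) * x (g * s u, (insert v (T.erase u), U)))) := by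
          rw [← Finset.sum_sub_distrib, Finset.mul_sum, Finset.mul_sum]
        rw [e1, e2]
        have h4 := ε.sq u (T.erase u) (Finset.notMem_erase _ _)
        linear_combination (x (g, (T, U))) * h4
      · rw [if_neg huT, D1_apply, Hu_apply, if_neg (fun h => huT h.1), add_zero]
        rw [Finset.sum_eq_single_of_mem u (Finset.mem_sdiff.mpr ⟨huU, huT⟩)]
        · rw [Hu_apply, if_pos ⟨Finset.mem_insert_self _ _, huU⟩, Finset.erase_insert huT]
          have h4 := ε.sq u T huT
          linear_combination (2⁻¹ * (x (g, (T, U)) - x (g * s u, (T, U)))) * h4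
        · intro v _ hvu
          rw [Hu_apply, if_neg, mul_zero]
          rintro ⟨h1, _⟩
          rcases Finset.mem_insert.mp h1 with h | h
          · exact hvu h.symm
          · exact huT h
    · rw [if_neg huU, D1_apply, Hu_apply, if_neg (fun h => huU h.2), add_zero]
      rw [Finset.sum_eq_zero, zero_add]
      intro v _
      rw [Hu_apply, if_neg (fun h => huU h.2), mul_zero]
  · have h1 : ∀ {j : ℤ}, ¬ (T ⊆ U ∧ okU Γ S U ∧ (T.card : ℤ) + n - U.card = j) :=
      fun h => hTU ⟨h.1, h.2.1⟩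
    rw [(mem_TC.mp m1).1 _ _ _ h1, (mem_TC.mp m2).1 _ _ _ h1, (mem_TC.mp m3).1 _ _ _ h1,
      hx'.1 _ _ _ h1]
    ring

/-- The properties of a homotopy `H` from the identity to a projection `K` for the vertices in
`A`. -/
structure HK (ε : Sgn V) (Γ : SimpleGraph V) (S : Finset V) (s : V → G) (n : ℕ) (A : Finset V)
    (H K : Hil (G × I2 V) →L[ℂ] Hil (G × I2 V)) : Prop where
  memH : ∀ (i : ℤ), ∀ x ∈ TC Γ S s n i, H x ∈ TC Γ S s n (i + 1)
  memK : ∀ (i : ℤ), ∀ x ∈ TC Γ S s n i, K x ∈ TC Γ S s n i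
  hom : ∀ (i : ℤ), ∀ x ∈ TC Γ S s n i, D1 ε (H x) + H (D1 ε x) + K x = x
  supp : ∀ (i : ℤ), ∀ x ∈ TC Γ S s n i, ∀ g T U, (∃ a ∈ A, a ∈ T) → T ⊆ U → K x (g, (T, U)) = 0
  inv : ∀ (i : ℤ), ∀ x ∈ TC Γ S s n i, ∀ g U, ∀ u ∈ A, u ∈ U →
    K x (g * s u, (∅, U)) = K x (g, (∅, U))
  H0 : ∀ x g U, H x (g, (∅, U)) = 0
  locH : ∀ x U, (∀ g T, x (g, (T, U)) = 0) → ∀ g T, H x (g, (T, U)) = 0
  locK : ∀ x T U, (∀ g, x (g, (T, U)) = 0) → ∀ g, K x (g, (T, U)) = 0
  cm : ∀ x U, okU Γ S U → ∀ u ∈ U, (∀ g, x (g * s u, (∅, U)) = x (g, (∅, U))) →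
    ∀ g, K x (g * s u, (∅, U)) = K x (g, (∅, U))
  fix : ∀ x U, (∀ u ∈ U, ∀ g, x (g * s u, (∅, U)) = x (g, (∅, U))) →
    ∀ g, K x (g, (∅, U)) = x (g, (∅, U))

theorem exists_HK (ε : Sgn V) (hs2 : ∀ v, s v * s v = 1)
    (hsc : ∀ v w, Γ.Adj v w → s v * s w = s w * s v) (A : Finset V) :
    ∃ H K : Hil (G × I2 V) →L[ℂ] Hil (G × I2 V), HK ε Γ S s n A H K := by
  induction A using Finset.induction_on with
  | empty =>
    refine ⟨0, 1, ?_, ?_, ?_, ?_, ?_, ?_, ?_, ?_, ?_, ?_⟩
    · intro i x _
      exact Submodule.zero_mem _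
    · intro i x hx
      exact hx
    · intro i x _
      simp
    · rintro i x _ g T U ⟨a, ha, _⟩
      exact absurd ha (Finset.notMem_empty _)
    · intro i x _ g U u hu
      exact absurd hu (Finset.notMem_empty _)
    · intro x g U
      exact lp_zero_apply _
    · intro x U _ g T
      exact lp_zero_apply _
    · intro x T U h g
      exact h g
    · intro x U _ u _ h g
      exact h g
    · intro x U _ g
      rfl
  | insert u A huA ih =>
    obtain ⟨H, K, h⟩ := ih
    have hD : ∀ (i : ℤ), ∀ x ∈ TC Γ S s n i, D1 ε x ∈ TC Γ S s n (i - 1) := by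
      intro i x hx
      apply D1_mem
      rwa [sub_add_cancel]
    have hDK : ∀ (i : ℤ), ∀ x ∈ TC Γ S s n i, D1 ε (K x) = K (D1 ε x) := by
      intro i x hx
      have h1 := congrArg (D1 ε) (h.hom i x hx)
      have h2 := h.hom _ _ (hD i x hx)
      rw [map_add, map_add, D1_D1, zero_add] at h1
      rw [D1_D1, map_zero, add_zero] at h2
      have h3 : D1 ε (H (D1 ε x)) + D1 ε (K x) = D1 ε (H (D1 ε x)) + K (D1 ε x) := by
        rw [h1, h2]
      exact add_left_cancel h3
    refine ⟨H + K.comp (Hu ε s u), K.comp (Ku s u), ?_, ?_, ?_, ?_, ?_, ?_, ?_, ?_, ?_, ?_⟩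
    · intro i x hx
      exact Submodule.add_mem _ (h.memH i x hx) (h.memK _ _ (Hu_mem ε s hs2 hsc u hx))
    · intro i x hx
      exact h.memK _ _ (Ku_mem s hsc u hx)
    · intro i x hx
      change D1 ε (H x + K (Hu ε s u x)) + (H (D1 ε x) + K (Hu ε s u (D1 ε x))) +
        K (Ku s u x) = x
      have h1 := h.hom i x hx
      have h2 := congrArg K (Hu_hom ε s hs2 hsc u hx)
      rw [map_add, map_add] at h2
      rw [map_add, hDK _ _ (Hu_mem ε s hs2 hsc u hx)]
      have e3 : D1 ε (H x) + K (D1 ε (Hu ε s u x)) + (H (D1 ε x) + K (Hu ε s u (D1 ε x))) +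
          K (Ku s u x) = D1 ε (H x) + H (D1 ε x) + (K (D1 ε (Hu ε s u x)) +
          K (Hu ε s u (D1 ε x)) + K (Ku s u x)) := by abel
      rw [e3, h2, h1]
    · rintro i x hx g T U ⟨a, ha, haT⟩ hTU
      change K (Ku s u x) (g, (T, U)) = 0
      rcases Finset.mem_insert.mp ha with rfl | ha
      · refine h.locK (Ku s a x) T U ?_ g
        intro g'
        rw [Ku_apply, if_pos (hTU haT), if_pos haT]
      · exact h.supp _ _ (Ku_mem s hsc u hx) g T U ⟨a, ha, haT⟩ hTU
    · intro i x hx g U v hv hvU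
      change K (Ku s u x) (g * s v, (∅, U)) = K (Ku s u x) (g, (∅, U))
      rcases Finset.mem_insert.mp hv with rfl | hv
      · by_cases hok : okU Γ S U
        · refine h.cm (Ku s v x) U hok v hvU ?_ g
          intro g'
          rw [Ku_apply, Ku_apply]
          simp only [hvU, if_true, Finset.notMem_empty, if_false]
          rw [mul_assoc g', hs2, mul_one]
          ring
        · have h1 : K (Ku s v x) ∈ TC Γ S s n i := h.memK _ _ (Ku_mem s hsc v hx)
          have h2 : ∀ {j : ℤ}, ¬ ((∅ : Finset V) ⊆ U ∧ okU Γ S U ∧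
              (((∅ : Finset V).card : ℕ) : ℤ) + n - U.card = j) := fun h => hok h.2.1
          rw [(mem_TC.mp h1).1 _ _ _ h2, (mem_TC.mp h1).1 _ _ _ h2]
      · exact h.inv _ _ (Ku_mem s hsc u hx) g U v hv hvU
    · intro x g U
      change (H x + K (Hu ε s u x) : Hil (G × I2 V)) (g, (∅, U)) = 0
      rw [lp_add_apply, h.H0, zero_add]
      apply h.locK
      intro g'
      rw [Hu_apply, if_neg]
      rintro ⟨h1, _⟩
      exact absurd h1 (Finset.notMem_empty _)
    · intro x U hx g T
      change (H x + K (Hu ε s u x) : Hil (G × I2 V)) (g, (T, U)) = 0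
      rw [lp_add_apply, h.locH x U hx, zero_add]
      apply h.locK
      intro g'
      rw [Hu_apply, hx, hx]
      split_ifs <;> ring
    · intro x T U hx g
      refine h.locK (Ku s u x) T U ?_ g
      intro g'
      rw [Ku_apply, hx, hx]
      split_ifs <;> ring
    · intro x U hok v hv hx g
      refine h.cm (Ku s u x) U hok v hv ?_ g
      intro g'
      rw [Ku_apply, Ku_apply, if_neg (Finset.notMem_empty _), if_neg (Finset.notMem_empty _)]
      split_ifs with huU
      · by_cases huv : u = v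
        · subst huv
          rw [mul_assoc g', hs2, mul_one]
          ring
        · have hadj : Γ.Adj v u := hok.2 hv huU (Ne.symm huv)
          have e1 : g' * s v * s u = g' * s u * s v := by
            rw [mul_assoc, mul_assoc, hsc v u hadj]
          rw [e1, hx, hx]
      · exact hx g'
    · intro x U hx g
      have h1 : ∀ g', Ku s u x (g', (∅, U)) = x (g', (∅, U)) := by
        intro g'
        rw [Ku_apply, if_neg (Finset.notMem_empty _)]
        split_ifs with huU
        · rw [hx u huU g']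
          ring
        · rfl
      change K (Ku s u x) (g, (∅, U)) = x (g, (∅, U))
      rw [h.fix (Ku s u x) U ?_ g, h1]
      intro v hv g'
      rw [h1, h1, hx v hv]

end

end Pool.Agent.Sph.H30
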