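import Pool.Agent.Helper30_Dua.Clo

/-!
# Poincaré duality for homology sphere nerves: lifting cubical cycles to total cycles
-/

namespace Pool.Agent.Sph.H30

open Pool.Agent.Helper30L2
open scoped ENNReal InnerProductSpace

set_option linter.unusedSectionVars false

noncomputable section

variable {V : Type*} [DecidableEq V] [Fintype V]

/-- The local homology of a homology sphere, in the form of exactness of cochain complexes. -/
structure QD (ε : Sgn V) (Γ : SimpleGraph V) (n : ℕ) (S : Finset V) (o : Finset V → ℂ) : Prop where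
  sup : ∀ U, o U ≠ 0 → U ⊆ S ∧ Γ.IsClique (U : Set V) ∧ U.card = n
  cyc : ∀ U', ∑ u ∈ Finset.univ \ U', ε.ε u U' * o (insert u U') = 0
  ex : ∀ (T : Finset V) (b : ℕ) (φ : Finset V → ℂ), T ⊆ S → Γ.IsClique (T : Set V) →
      (∀ U, φ U ≠ 0 → T ⊆ U ∧ U ⊆ S ∧ Γ.IsClique (U : Set V) ∧ U.card = b) →
      (∀ U, T ⊆ U → U ⊆ S → Γ.IsClique (U : Set V) → U.card = b + 1 →
        ∑ u ∈ U \ T, ε.ε u (U.erase u) * φ (U.erase u) = 0) →
      (b = n → ∑ U, o U * φ U = 0) →
      ∃ ψ : Finset V → ℂ, (∀ U, ψ U ≠ 0 → T ⊆ U ∧ U ⊆ S ∧ Γ.IsClique (U : Set V) ∧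
        U.card + 1 = b) ∧
        ∀ U, T ⊆ U → U ⊆ S → Γ.IsClique (U : Set V) → U.card = b →
          φ U = ∑ u ∈ U \ T, ε.ε u (U.erase u) * ψ (U.erase u)
  card_le : ∀ T ⊆ S, Γ.IsClique (T : Set V) → T.card ≤ n
  facet : ∀ T ⊆ S, Γ.IsClique (T : Set V) → ∃ U, T ⊆ U ∧ o U ≠ 0

/-- Linear maps of vector spaces have sections on their range. -/
theorem exists_ginv {M N : Type*} [AddCommGroup M] [Module ℂ M] [AddCommGroup N] [Module ℂ N]
    (f : M →ₗ[ℂ] N) : ∃ g : N →ₗ[ℂ] M, ∀ x, f (g (f x)) = f x := by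
  obtain ⟨g, hg⟩ := f.rangeRestrict.exists_rightInverse_of_surjective
    (LinearMap.range_eq_top.mpr f.surjective_rangeRestrict)
  obtain ⟨g', hg'⟩ := LinearMap.exists_extend g
  refine ⟨g', fun x => ?_⟩
  have h1 : g' (f x) = g (f.rangeRestrict x) := by
    have := LinearMap.congr_fun hg' (f.rangeRestrict x)
    exact this
  have h2 := LinearMap.congr_fun hg (f.rangeRestrict x)
  have h3 := congrArg Subtype.val h2
  rw [h1]
  exact h3

variable {ε : Sgn V} {Γ : SimpleGraph V} {n : ℕ} {S : Finset V} {o : Finset V → ℂ}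

theorem QD.exists_sec (h : QD ε Γ n S o) {T : Finset V} (hT : T ⊆ S)
    (hT' : Γ.IsClique (T : Set V)) (b : ℕ) : ∃ H : Finset V → Finset V → ℂ,
    (∀ U' U, H U' U ≠ 0 → T ⊆ U' ∧ okU Γ S U' ∧ U'.card + 1 = b) ∧
    ∀ φ : Finset V → ℂ, (∀ U, φ U ≠ 0 → T ⊆ U ∧ U ⊆ S ∧ Γ.IsClique (U : Set V) ∧ U.card = b) →
      (∀ U, T ⊆ U → U ⊆ S → Γ.IsClique (U : Set V) → U.card = b + 1 →
        ∑ u ∈ U \ T, ε.ε u (U.erase u) * φ (U.erase u) = 0) →
      (b = n → ∑ U, o U * φ U = 0) →
      ∀ U, T ⊆ U → U ⊆ S → Γ.IsClique (U : Set V) → U.card = b →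
          φ U = ∑ u ∈ U \ T, ε.ε u (U.erase u) * ∑ W, H (U.erase u) W * φ W := by
  classical
  let δ : (Finset V → ℂ) →ₗ[ℂ] (Finset V → ℂ) :=
    { toFun := fun ψ U => if T ⊆ U ∧ okU Γ S U ∧ U.card = b then
        ∑ u ∈ U \ T, ε.ε u (U.erase u) * ψ (U.erase u) else 0
      map_add' := by
        intro ψ₁ ψ₂
        funext U
        simp only [Pi.add_apply]
        split_ifs
        · rw [← Finset.sum_add_distrib]
          refine Finset.sum_congr rfl fun u _ => by ring
        · rw [add_zero]
      map_smul' := by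
        intro c ψ
        funext U
        simp only [Pi.smul_apply, smul_eq_mul, RingHom.id_apply]
        split_ifs
        · rw [Finset.mul_sum]
          refine Finset.sum_congr rfl fun u _ => by ring
        · rw [mul_zero] }
  have hδ : ∀ ψ U, δ ψ U = if T ⊆ U ∧ okU Γ S U ∧ U.card = b then
        ∑ u ∈ U \ T, ε.ε u (U.erase u) * ψ (U.erase u) else 0 := fun ψ U => rfl
  obtain ⟨g, hg⟩ := exists_ginv δ
  refine ⟨fun U' W => if T ⊆ U' ∧ okU Γ S U' ∧ U'.card + 1 = b then g (Pi.single W 1) U' else 0,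
    ?_, ?_⟩
  · intro U' U hU
    by_contra hcon
    exact hU (if_neg hcon)
  · intro φ h1 h2 h3 U hTU hUS hUc hUb
    obtain ⟨ψ, _, hψ⟩ := h.ex T b φ hT hT' h1 h2 h3
    have e1 : δ ψ = φ := by
      funext W
      rw [hδ]
      split_ifs with hW
      · exact (hψ W hW.1 hW.2.1.1 hW.2.1.2 hW.2.2).symm
      · by_contra hcon
        have := h1 W (Ne.symm hcon)
        exact hW ⟨this.1, ⟨this.2.1, this.2.2.1⟩, this.2.2.2⟩
    have e2 : δ (g φ) = φ := by rw [← e1, hg]
    have e3 : ∀ U', g φ U' = ∑ W, g (Pi.single W 1) U' * φ W := by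
      intro U'
      have e4 : φ = ∑ W, φ W • (Pi.single W (1 : ℂ) : Finset V → ℂ) := by
        funext X
        rw [Finset.sum_apply]
        simp [Pi.single_apply]
      conv_lhs => rw [e4]
      rw [map_sum, Finset.sum_apply]
      refine Finset.sum_congr rfl fun W _ => ?_
      rw [map_smul, Pi.smul_apply, smul_eq_mul, mul_comm]
    have e5 : φ U = δ (g φ) U := by rw [e2]
    rw [e5, hδ, if_pos ⟨hTU, ⟨hUS, hUc⟩, hUb⟩]
    refine Finset.sum_congr rfl fun u hu => ?_
    rw [Finset.mem_sdiff] at hu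
    rw [e3]
    congr 1
    refine Finset.sum_congr rfl fun W _ => ?_
    beta_reduce
    rw [if_pos]
    refine ⟨?_, ⟨(Finset.erase_subset _ _).trans hUS, hUc.subset (by simp)⟩, ?_⟩
    · intro t ht
      rw [Finset.mem_erase]
      refine ⟨?_, hTU ht⟩
      rintro rfl
      exact hu.2 ht
    · rw [Finset.card_erase_add_one hu.1, hUb]

variable {G : Type*} [Group G] {s : V → G}

/-- The start of the lift. -/
theorem QD.lift_zero (h : QD ε Γ n S o) {i : ℤ} {x : Hil (G × Finset V)} (hx : x ∈ Cc Γ s S i) :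
    ∃ τ ∈ TC Γ S s n i, pc o τ = x ∧
      ∀ g T U, i ≤ (T.card : ℤ) → DT ε Γ S τ (g, (T, U)) = 0 := by
  classical
  have hF : ∀ T : Finset V, ∃ U : Finset V, okU Γ S T → T ⊆ U ∧ o U ≠ 0 := by
    intro T
    by_cases hT : okU Γ S T
    · obtain ⟨U, hU⟩ := h.facet T hT.1 hT.2
      exact ⟨U, fun _ => hU⟩
    · exact ⟨∅, fun h => absurd h hT⟩
  choose F hF using hF
  let τ : Hil (G × I2 V) := Fo (K := Unit) (fun q _ => q.1)
    (fun q _ => if q.2 = F q.1 then (o (F q.1))⁻¹ else 0) x
  have hτ : ∀ g T U, τ (g, (T, U)) = if U = F T then (o (F T))⁻¹ * x (g, T) else 0 := by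
    intro g T U
    change Fo (K := Unit) _ _ x (g, (T, U)) = _
    rw [Fo_apply]
    simp
  have hx0 := mem_Cc.mp hx
  have hτm : τ ∈ TC Γ S s n i := by
    rw [mem_TC]
    constructor
    · intro g T U hTU
      rw [hτ]
      split_ifs with hU
      · by_cases hT : OK Γ S i T
        · exfalso
          have h1 := hF T ⟨hT.1, hT.2.1⟩
          have h2 := h.sup _ h1.2
          apply hTU
          rw [hU]
          refine ⟨h1.1, ⟨h2.1, h2.2.1⟩, ?_⟩
          rw [h2.2.2, hT.2.2]
          ring
        · rw [hx0.1 g T hT, mul_zero]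
      · rfl
    · intro g T U t ht
      rw [hτ, hτ, hx0.2 g T t ht]
      split_ifs <;> ring
  refine ⟨τ, hτm, ?_, ?_⟩
  · apply Hil.ext'
    rintro ⟨g, T⟩
    rw [pc_apply]
    by_cases hT : OK Γ S i T
    · have h1 := hF T ⟨hT.1, hT.2.1⟩
      rw [Finset.sum_eq_single (F T)]
      · rw [hτ, if_pos rfl, ← mul_assoc, mul_inv_cancel₀ h1.2, one_mul]
      · intro U _ hU
        rw [hτ, if_neg hU, mul_zero]
      · intro hU
        exact absurd (Finset.mem_univ _) hU
    · rw [hx0.1 g T hT]
      refine Finset.sum_eq_zero fun U _ => ?_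
      rw [hτ, hx0.1 g T hT]
      split_ifs <;> ring
  · intro g T U hT
    have h1 := mem_TC.mp (DT_mem' (ε := ε) hτm)
    apply h1.1
    rintro ⟨h2, h3, h4⟩
    have h5 := h.card_le U h3.1 h3.2
    have h6 : (U.card : ℤ) ≤ n := by exact_mod_cast h5
    linarith

/-- The step of the lift. -/
theorem QD.lift_step (h : QD ε Γ n S o) {i : ℤ} {x : Hil (G × Finset V)}
    (hd : Dd ε S x = 0) (l : ℕ) {τ : Hil (G × I2 V)} (hτ : τ ∈ TC Γ S s n i) (hp : pc o τ = x)
    (h0 : ∀ g T U, i - l ≤ (T.card : ℤ) → DT ε Γ S τ (g, (T, U)) = 0) :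
    ∃ τ' ∈ TC Γ S s n i, pc o τ' = x ∧
      ∀ g T U, i - (l + 1 : ℕ) ≤ (T.card : ℤ) → DT ε Γ S τ' (g, (T, U)) = 0 := by
  classical
  set y := DT ε Γ S τ with hy
  have hym := mem_TC.mp (DT_mem' (ε := ε) hτ)
  rw [← hy] at hym
  by_cases hl : l ≤ n
  · set b : ℕ := n - l with hb
    have hbz : (b : ℤ) = n - l := by
      rw [hb]
      push_cast [hl]
      ring
    set a : ℤ := i - (l + 1 : ℕ) with ha
    have haz : a = i - l - 1 := by
      rw [ha]
      push_cast
      ring
    have hH : ∀ T : Finset V, ∃ H : Finset V → Finset V → ℂ,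
        (∀ U' U, H U' U ≠ 0 → T ⊆ U' ∧ okU Γ S U' ∧ U'.card + 1 = b) ∧
        (okU Γ S T → ∀ φ : Finset V → ℂ,
          (∀ U, φ U ≠ 0 → T ⊆ U ∧ U ⊆ S ∧ Γ.IsClique (U : Set V) ∧ U.card = b) →
          (∀ U, T ⊆ U → U ⊆ S → Γ.IsClique (U : Set V) → U.card = b + 1 →
            ∑ u ∈ U \ T, ε.ε u (U.erase u) * φ (U.erase u) = 0) →
          (b = n → ∑ U, o U * φ U = 0) →
          ∀ U, T ⊆ U → U ⊆ S → Γ.IsClique (U : Set V) → U.card = b →
            φ U = ∑ u ∈ U \ T, ε.ε u (U.erase u) * ∑ W, H (U.erase u) W * φ W) := by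
      intro T
      by_cases hT : okU Γ S T
      · obtain ⟨H, h1, h2⟩ := h.exists_sec hT.1 hT.2 b
        exact ⟨H, h1, fun _ => h2⟩
      · exact ⟨fun _ _ => 0, fun _ _ hc => absurd rfl hc, fun hc => absurd hc hT⟩
    choose H hH1 hH2 using hH
    let σ : Hil (G × I2 V) := Fo (K := Finset V) (fun q W => (q.1, W))
      (fun q W => if (q.1.card : ℤ) = a then - chi q.1 * H q.1 q.2 W else 0) y
    have hσ : ∀ g T U, σ (g, (T, U)) = if (T.card : ℤ) = a then
        - chi T * ∑ W, H T U W * y (g, (T, W)) else 0 := by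
      intro g T U
      change Fo (K := Finset V) _ _ y (g, (T, U)) = _
      rw [Fo_apply]
      split_ifs with hT
      · rw [Finset.mul_sum]
        refine Finset.sum_congr rfl fun W _ => by ring
      · simp
    have hσm : σ ∈ TC Γ S s n i := by
      rw [mem_TC]
      constructor
      · intro g T U hTU
        rw [hσ]
        split_ifs with hT
        · rw [Finset.sum_eq_zero, mul_zero]
          intro W _
          by_cases hc : H T U W = 0
          · rw [hc, zero_mul]
          · exfalso
            obtain ⟨h1, h2, h3⟩ := hH1 T U W hc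
            apply hTU
            refine ⟨h1, h2, ?_⟩
            have h4 : (U.card : ℤ) + 1 = b := by exact_mod_cast h3
            linarith
        · rfl
      · intro g T U t ht
        rw [hσ, hσ]
        split_ifs with hT
        · rw [← mul_neg, ← Finset.sum_neg_distrib]
          congr 1
          refine Finset.sum_congr rfl fun W _ => ?_
          rw [hym.2 g T W t ht]
          ring
        · rw [neg_zero]
    have hσp : pc o σ = 0 := by
      apply Hil.ext'
      rintro ⟨g, T⟩
      rw [pc_apply, lp_zero_apply]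
      refine Finset.sum_eq_zero fun U _ => ?_
      by_cases hU : o U = 0
      · rw [hU, zero_mul]
      · have h1 := (h.sup U hU).2.2
        rw [hσ]
        split_ifs with hT
        · rw [Finset.sum_eq_zero, mul_zero, mul_zero]
          intro W _
          by_cases hc : H T U W = 0
          · rw [hc, zero_mul]
          · exfalso
            obtain ⟨_, _, h3⟩ := hH1 T U W hc
            omega
        · rw [mul_zero]
    refine ⟨τ + σ, Submodule.add_mem _ hτ hσm, ?_, ?_⟩
    · rw [map_add, hp, hσp, add_zero]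
    · intro g T U hT
      have hm := mem_TC.mp (DT_mem' (ε := ε) (Submodule.add_mem _ hτ hσm))
      by_cases hTU : T ⊆ U ∧ okU Γ S U ∧ (T.card : ℤ) + n - U.card = i - 1
      · rw [map_add, lp_add_apply, ← hy, DT_apply, lp_add_apply]
        have hD1 : D1 ε σ (g, (T, U)) = 0 := by
          rw [D1_apply]
          refine Finset.sum_eq_zero fun v hv => ?_
          rw [Finset.mem_sdiff] at hv
          rw [hσ, if_neg, mul_zero]
          rw [Finset.card_insert_of_notMem hv.2]
          push_cast
          intro hc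
          linarith
        rw [hD1, zero_add, D2_apply_ok _ _ _ hTU.2.1]
        by_cases hTa : (T.card : ℤ) = a
        · have hok : okU Γ S T := ⟨hTU.1.trans hTU.2.1.1,
            hTU.2.1.2.subset (by exact_mod_cast hTU.1)⟩
          have hUb : U.card = b := by
            have : (U.card : ℤ) = b := by linarith [hTU.2.2]
            exact_mod_cast this
          have key := hH2 T hok (fun W => y (g, (T, W))) ?_ ?_ ?_ U hTU.1 hTU.2.1.1 hTU.2.1.2 hUb
          · have e1 : ∑ u ∈ U \ T, ε.ε u (U.erase u) * σ (g, (T, U.erase u)) =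
                - chi T * y (g, (T, U)) := by
              have key' : y (g, (T, U)) = _ := key
              rw [key', Finset.mul_sum]
              refine Finset.sum_congr rfl fun u _ => ?_
              rw [hσ, if_pos hTa]
              ring
            rw [e1, ← mul_assoc, mul_neg, chi_sq]
            ring
          · intro W hW
            by_contra hcon
            apply hW
            apply hym.1
            rintro ⟨h1, h2, h3⟩
            apply hcon
            refine ⟨h1, h2.1, h2.2, ?_⟩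
            have : (W.card : ℤ) = b := by linarith
            exact_mod_cast this
          · intro W hTW hWS hWc hWb
            have h1 : DT ε Γ S y = 0 := by rw [hy, DT_DT]
            have h2 : DT ε Γ S y (g, (T, W)) = 0 := by rw [h1, lp_zero_apply]
            rw [DT_apply, lp_add_apply, D2_apply_ok _ _ _ ⟨hWS, hWc⟩, D1_apply,
              Finset.sum_eq_zero, zero_add] at h2
            · rcases mul_eq_zero.mp h2 with h3 | h3
              · exfalso
                have := chi_sq T
                rw [h3, mul_zero] at this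
                exact zero_ne_one this
              · exact h3
            · intro v hv
              rw [Finset.mem_sdiff] at hv
              rw [h0, mul_zero]
              rw [Finset.card_insert_of_notMem hv.2]
              push_cast
              linarith
          · intro hbn
            have h1 : pc o y (g, T) = 0 := by
              rw [hy, pc_DT ε (fun U hU => ⟨(h.sup U hU).1, (h.sup U hU).2.1⟩) h.cyc hτ, hp, hd,
                lp_zero_apply]
            rw [pc_apply] at h1
            exact h1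
        · have h1 : i - l ≤ (T.card : ℤ) := by
            have : a < (T.card : ℤ) := lt_of_le_of_ne hT (Ne.symm hTa)
            linarith [Int.add_one_le_iff.mpr this]
          rw [h0 _ _ _ h1, Finset.sum_eq_zero, mul_zero, add_zero]
          intro u _
          rw [hσ, if_neg hTa, mul_zero]
      · exact hm.1 _ _ _ hTU
  · refine ⟨τ, hτ, hp, ?_⟩
    intro g T U hT
    by_cases h1 : i - l ≤ (T.card : ℤ)
    · exact h0 _ _ _ h1
    · apply hym.1
      rintro ⟨h2, h3, h4⟩
      push_cast at hT
      have h5 : (0 : ℤ) ≤ U.card := by positivity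
      have h6 : (n : ℤ) < l := by exact_mod_cast not_le.mp hl
      have h7 : (T.card : ℤ) = i - (l + 1) := by
        have := not_le.mp h1
        have := Int.add_one_le_iff.mpr this
        linarith
      linarith

/-- Cubical cycles lift to total cycles. -/
theorem QD.cycle_lift (h : QD ε Γ n S o) {i : ℤ} {x : Hil (G × Finset V)} (hx : x ∈ Cc Γ s S i)
    (hd : Dd ε S x = 0) : ∃ τ ∈ TC Γ S s n i, pc o τ = x ∧ DT ε Γ S τ = 0 := by
  have key : ∀ l : ℕ, ∃ τ ∈ TC Γ S s n i, pc o τ = x ∧
      ∀ g T U, i - l ≤ (T.card : ℤ) → DT ε Γ S τ (g, (T, U)) = 0 := by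
    intro l
    induction l with
    | zero =>
      obtain ⟨τ, h1, h2, h3⟩ := h.lift_zero hx
      refine ⟨τ, h1, h2, ?_⟩
      intro g T U hT
      apply h3
      simpa using hT
    | succ l ih =>
      obtain ⟨τ, h1, h2, h3⟩ := ih
      exact h.lift_step hd l h1 h2 h3
  obtain ⟨τ, h1, h2, h3⟩ := key i.toNat
  refine ⟨τ, h1, h2, ?_⟩
  apply Hil.ext'
  rintro ⟨g, T, U⟩
  rw [lp_zero_apply]
  apply h3
  have := Int.self_le_toNat i
  have h5 : (0 : ℤ) ≤ T.card := by positivity
  linarith

end

end Pool.Agent.Sph.H30
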