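import Pool.Agent.Helper30_Dua.Lift
import Pool.Agent.Helper30_L2.Join

/-!
# Poincaré duality for homology sphere nerves: the vanishing statement
-/

namespace Pool.Agent.Sph.H30

open Pool.Agent.Helper30L2
open scoped ENNReal InnerProductSpace

set_option linter.unusedSectionVars false

noncomputable section

variable {V : Type*} [DecidableEq V] [Fintype V]
variable {ε : Sgn V} {Γ : SimpleGraph V} {n : ℕ} {S : Finset V} {o : Finset V → ℂ}

theorem t0_K_eq {G : Type*} [Group G] {s : V → G} (hs2 : ∀ v, s v * s v = 1)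
    {H K : Hil (G × I2 V) →L[ℂ] Hil (G × I2 V)}
    (h : HK ε Γ S s n Finset.univ H K) {i : ℤ} {x : Hil (G × I2 V)} (hx : x ∈ TC Γ S s n i) :
    t0 (K x) = pr (CP Γ s S (n - i)) (t0 x) := by
  symm
  apply pr_eq
  · exact Submodule.le_topologicalClosure _ (t0_K_mem h hx)
  · rw [Submodule.mem_orthogonal]
    intro c hc
    rw [← inner_conj_symm, inner_sub_left, t0_K_inner hs2 h hx hc, sub_self, map_zero]

/-- Every cycle is a limit of boundaries. -/
theorem QD.approx (h : QD ε Γ n S o) (hre : ∀ v T, (starRingEnd ℂ) (ε.ε v T) = ε.ε v T) {i : ℤ}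
    (hb : bb ε Γ S (n - i) = 0) {x : Hil ((cm Γ).Group × Finset V)}
    (hx : x ∈ Cc Γ (gn Γ) S i) (hd : Dd ε S x = 0) :
    ∃ M : ℝ, 0 < M ∧ ∀ η : ℝ, 0 < η → ∃ z ∈ Cc Γ (gn Γ) S (i + 1), ‖x - Dd ε S z‖ ≤ M * η := by
  obtain ⟨H, K, hHK⟩ := exists_HK (Γ := Γ) (S := S) (n := n) ε (s := gn Γ) gn_sq gn_comm'
    Finset.univ
  obtain ⟨C, hC0, hC⟩ := bounded_rep hHK
  obtain ⟨τ, hτ, hp, hdτ⟩ := h.cycle_lift hx hd
  set y := t0 (K τ) with hy
  have hym : y ∈ CP Γ (gn Γ) S (n - i) := t0_K_mem hHK hτ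
  have hoU : ∀ U, o U ≠ 0 → okU Γ S U := fun U hU => ⟨(h.sup U hU).1, (h.sup U hU).2.1⟩
  have hyc : ∀ c ∈ CP Γ (gn Γ) S ((n : ℤ) - i + 1), ⟪Dd ε S c, y⟫_ℂ = 0 := by
    intro c hc
    have h1 : ⟪y, Dd ε S c⟫_ℂ = 0 := by
      rw [hy, ← t0_K_inner gn_sq hHK hτ (Dd_CP ε hc), ← Dd_univ_CP hc, ← inner_Jd hre,
        ← t0_D2_inner (Γ := Γ) hc]
      have h2 : D2 ε Γ S τ = - D1 ε τ := by
        rw [DT_apply] at hdτ
        exact eq_neg_of_add_eq_zero_right hdτ
      rw [h2, map_neg, inner_neg_left, t0_D1_inner gn_sq hc hτ, neg_zero]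
    rw [← inner_conj_symm, h1, map_zero]
  have hcl := cocycle_closure hre hb hym hyc
  refine ⟨‖pc (G := (cm Γ).Group) o‖ * C * ‖i0 (V := V) (G := (cm Γ).Group)‖ + 1,
    by positivity, ?_⟩
  intro η hη
  have hcl' : y ∈ closure (((CP Γ (gn Γ) S ((n : ℤ) - i - 1)).map
      (((pr (CP Γ (gn Γ) S ((n : ℤ) - i))).comp (Jd ε) :
        Hil ((cm Γ).Group × Finset V) →L[ℂ] Hil ((cm Γ).Group × Finset V)) :
        Hil ((cm Γ).Group × Finset V) →ₗ[ℂ] Hil ((cm Γ).Group × Finset V)) :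
        Submodule ℂ (Hil ((cm Γ).Group × Finset V))) : Set (Hil ((cm Γ).Group × Finset V))) := hcl
  rw [Metric.mem_closure_iff] at hcl'
  obtain ⟨_, ⟨w, hw, rfl⟩, hwd⟩ := hcl' η hη
  have hwd' : ‖y - pr (CP Γ (gn Γ) S ((n : ℤ) - i)) (Jd ε w)‖ < η := by
    rw [← dist_eq_norm]
    exact hwd
  have hiw : i0 w ∈ TC Γ S (gn Γ) n (i + 1) := by
    have := i0_mem (n := n) hw
    have e : (n : ℤ) - (n - i - 1) = i + 1 := by ring
    rwa [e] at this
  have hD1 : D1 ε (i0 w) = 0 := by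
    apply Hil.ext'
    rintro ⟨g, T, U⟩
    rw [D1_apply, lp_zero_apply]
    refine Finset.sum_eq_zero fun v _ => ?_
    rw [i0_apply, if_neg (Finset.insert_ne_empty _ _), mul_zero]
  set τ' := τ - DT ε Γ S (i0 w) with hτ'
  have hτ'm : τ' ∈ TC Γ S (gn Γ) n i := Submodule.sub_mem _ hτ (DT_mem ε hiw)
  have hτ'd : DT ε Γ S τ' = 0 := by
    rw [hτ', map_sub, hdτ, DT_DT, sub_zero]
  have e1 : t0 (K τ') = y - pr (CP Γ (gn Γ) S ((n : ℤ) - i)) (Jd ε w) := by
    rw [hτ', map_sub, map_sub, ← hy]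
    congr 1
    rw [t0_K_eq gn_sq hHK (DT_mem ε hiw), DT_apply, hD1, zero_add]
    rw [← sub_eq_zero, ← map_sub, pr_eq_zero, Submodule.mem_orthogonal]
    intro c hc
    rw [← inner_conj_symm, inner_sub_left, t0_D2_inner (Γ := Γ) hc]
    have e2 : t0 (i0 w) = w := by
      apply Hil.ext'
      rintro ⟨g, U⟩
      rw [t0_apply, i0_apply, if_pos rfl]
    rw [e2, sub_self, map_zero]
  have e3 : ‖K τ'‖ ≤ ‖i0 (V := V) (G := (cm Γ).Group)‖ * η := by
    rw [K_eq_i0 hHK hτ'm, e1]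
    refine (ContinuousLinearMap.le_opNorm _ _).trans ?_
    exact mul_le_mul_of_nonneg_left hwd'.le (norm_nonneg _)
  obtain ⟨ρ, hρ, hρn⟩ := hC i τ' hτ'm hτ'd
  have hz : i0 w + ρ ∈ TC Γ S (gn Γ) n (i + 1) := Submodule.add_mem _ hiw hρ
  refine ⟨pc o (i0 w + ρ), pc_mem (fun U hU => (h.sup U hU).2.2) hz, ?_⟩
  have e4 : x - Dd ε S (pc o (i0 w + ρ)) = pc o (τ' - DT ε Γ S ρ) := by
    rw [← pc_DT ε hoU h.cyc hz, ← hp, ← map_sub, hτ', map_add]
    congr 1
    abel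
  rw [e4]
  refine (ContinuousLinearMap.le_opNorm _ _).trans ?_
  have e5 : ‖pc (G := (cm Γ).Group) o‖ * ‖τ' - DT ε Γ S ρ‖ ≤
      ‖pc (G := (cm Γ).Group) o‖ * (C * (‖i0 (V := V) (G := (cm Γ).Group)‖ * η)) := by
    apply mul_le_mul_of_nonneg_left _ (norm_nonneg _)
    exact hρn.trans (mul_le_mul_of_nonneg_left e3 hC0)
  refine e5.trans ?_
  have e6 : (‖pc (G := (cm Γ).Group) o‖ * C * ‖i0 (V := V) (G := (cm Γ).Group)‖ + 1) * η =
      ‖pc (G := (cm Γ).Group) o‖ * (C * (‖i0 (V := V) (G := (cm Γ).Group)‖ * η)) + η := by ring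
  rw [e6]
  linarith

theorem QD.bb_zero (h : QD ε Γ n S o) (hre : ∀ v T, (starRingEnd ℂ) (ε.ε v T) = ε.ε v T) {i : ℤ}
    (hb : bb ε Γ S (n - i) = 0) : bb ε Γ S i = 0 := by
  have h1 : Hh ε Γ (gn Γ) S i = ⊥ := by
    rw [Submodule.eq_bot_iff]
    intro x hx
    obtain ⟨hx1, hx2, hx3⟩ := mem_Hh.mp hx
    obtain ⟨M, hM, hz⟩ := h.approx hre hb hx1 hx2
    by_contra hne
    have hpos : 0 < ‖x‖ := norm_pos_iff.mpr hne
    obtain ⟨z, hz1, hz2⟩ := hz (‖x‖ / (2 * M)) (by positivity)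
    have e1 : M * (‖x‖ / (2 * M)) = ‖x‖ / 2 := by
      field_simp
    rw [e1] at hz2
    have e2 : ⟪x, x⟫_ℂ = ⟪x - Dd ε S z, x⟫_ℂ := by
      rw [inner_sub_left, hx3 z hz1, sub_zero]
    have e3 : ‖⟪x, x⟫_ℂ‖ ≤ ‖x‖ / 2 * ‖x‖ := by
      rw [e2]
      exact (norm_inner_le_norm _ _).trans (mul_le_mul_of_nonneg_right hz2 (norm_nonneg _))
    have e4 : ‖⟪x, x⟫_ℂ‖ = ‖x‖ * ‖x‖ := by
      rw [inner_self_eq_norm_sq_to_K, ← pow_two]
      simp
    rw [e4] at e3
    nlinarith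
  unfold bb
  rw [h1, vdim_bot]

end

theorem dua : QhsStmt → CarStmt → DuaStmt := by
  intro hQ hC V _ _ Γ n S hS ε i hb
  obtain ⟨r, hr⟩ := exists_inj V
  obtain ⟨o, h1, h2, h3⟩ := hQ V Γ n S r hr hS
  have hsgn : ∀ v T, (sgr r v T : ℂ) = (Sgn.ofInj r hr).ε v T := by
    intro v T
    unfold sgr Sgn.ofInj
    push_cast
    rfl
  have hq : QD (Sgn.ofInj r hr) Γ n S o := by
    refine ⟨h1, ?_, ?_, ?_, ?_⟩
    · intro U'
      rw [← h2 U']
      exact Finset.sum_congr rfl fun u _ => by rw [hsgn]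
    · intro T b φ hT hT' ha hb' hc
      obtain ⟨ψ, hψ1, hψ2⟩ := h3 T b φ hT hT' ha (by
        intro U q1 q2 q3 q4
        rw [← hb' U q1 q2 q3 q4]
        exact Finset.sum_congr rfl fun u _ => by rw [hsgn]) hc
      refine ⟨ψ, hψ1, ?_⟩
      intro U q1 q2 q3 q4
      rw [hψ2 U q1 q2 q3 q4]
      exact Finset.sum_congr rfl fun u _ => by rw [hsgn]
    · intro T hT hT'
      exact (hC V Γ n S hS T hT hT').1
    · -- every simplex is in a facet, and the fundamental cycle does not vanish there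
      have hne : ∀ U ⊆ S, Γ.IsClique (U : Set V) → U.card = n → o U ≠ 0 := by
        intro U hU hU' hUn hoU
        obtain ⟨ψ, hψ1, hψ2⟩ := h3 U n (fun W => if W = U then 1 else 0) hU hU' (by
          intro W hW
          have : W = U := by
            by_contra hcon
            exact hW (if_neg hcon)
          subst this
          exact ⟨le_refl _, hU, hU', hUn⟩) (by
          intro W q1 q2 q3 q4
          have := (hC V Γ n S hS W q2 q3).1
          omega) (by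
          intro _
          refine Finset.sum_eq_zero fun W _ => ?_
          split_ifs with hW
          · rw [hW, hoU, zero_mul]
          · rw [mul_zero])
        have := hψ2 U (le_refl _) hU hU' hUn
        rw [if_pos rfl, Finset.sdiff_self, Finset.sum_empty] at this
        exact one_ne_zero this
      have key : ∀ m : ℕ, ∀ T ⊆ S, Γ.IsClique (T : Set V) → n - T.card ≤ m →
          ∃ U, T ⊆ U ∧ o U ≠ 0 := by
        intro m
        induction m with
        | zero =>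
          intro T hT hT' hm
          have := (hC V Γ n S hS T hT hT').1
          exact ⟨T, le_refl _, hne T hT hT' (by omega)⟩
        | succ m ih =>
          intro T hT hT' hm
          by_cases hmax : ∀ v ∈ S, v ∉ T → ¬ Γ.IsClique (insert v T : Set V)
          · exact ⟨T, le_refl _, hne T hT hT' ((hC V Γ n S hS T hT hT').2 hmax)⟩
          · push Not at hmax
            obtain ⟨v, hv, hvT, hvc⟩ := hmax
            obtain ⟨U, hU1, hU2⟩ := ih (insert v T) (Finset.insert_subset hv hT)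
              (by rw [Finset.coe_insert]; exact hvc)
              (by rw [Finset.card_insert_of_notMem hvT]; omega)
            exact ⟨U, (Finset.subset_insert _ _).trans hU1, hU2⟩
      intro T hT hT'
      exact key _ T hT hT' (le_refl _)
  have hre : ∀ v T, (starRingEnd ℂ) ((Sgn.ofInj r hr).ε v T) = (Sgn.ofInj r hr).ε v T := by
    intro v T
    rw [← hsgn]
    exact map_intCast (starRingEnd ℂ) _
  rw [bb_twist (Sgn.ofInj r hr) ε] at hb ⊢
  exact hq.bb_zero hre hb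

end Pool.Agent.Sph.H30
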