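import Pool.Agent.Helper30_Sph.Stmts

/-!
# Poincaré duality for homology sphere nerves: operators on pairs of simplices
-/

namespace Pool.Agent.Sph.H30

open Pool.Agent.Helper30L2
open scoped ENNReal InnerProductSpace

set_option linter.unusedSectionVars false

noncomputable section

section fo

variable {G : Type*} [Group G] {I I' K : Type*} [DecidableEq I'] [Fintype I'] [Fintype K]

/-- The operator that moves the component `i` to the component `q`. -/
def Ee (i : I) (q : I') : Hil (G × I) →L[ℂ] Hil (G × I') :=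
  wmap (fun p => (p.1, i)) (fun p => if p.2 = q then 1 else 0) (fun p => by
    split_ifs <;> simp) (by
    rintro ⟨g, a⟩ ⟨h, b⟩ h1 h2 h3
    simp only [ne_eq, ite_eq_right_iff, one_ne_zero, imp_false, not_not] at h1 h2
    simp only [Prod.mk.injEq, and_true] at h3
    rw [h1, h2, h3])

theorem Ee_apply (i : I) (q : I') (x : Hil (G × I)) (g : G) (a : I') :
    Ee i q x (g, a) = if a = q then x (g, i) else 0 := by
  unfold Ee
  rw [wmap_apply]
  split_ifs <;> simp

/-- The operator given by finitely many terms in each component. -/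
def Fo (p : I' → K → I) (c : I' → K → ℂ) : Hil (G × I) →L[ℂ] Hil (G × I') :=
  ∑ q : I', ∑ k : K, c q k • Ee (p q k) q

theorem Fo_apply (p : I' → K → I) (c : I' → K → ℂ) (x : Hil (G × I)) (g : G) (q : I') :
    Fo p c x (g, q) = ∑ k, c q k * x (g, p q k) := by
  unfold Fo
  rw [ContinuousLinearMap.sum_apply]
  have h1 : ∀ (s : Finset I') (F : I' → Hil (G × I')), (∑ i ∈ s, F i : Hil (G × I')) (g, q) =
      ∑ i ∈ s, F i (g, q) := by
    intro s F
    rw [lp.coeFn_sum]
    simp
  have h2 : ∀ (s : Finset K) (F : K → Hil (G × I')), (∑ i ∈ s, F i : Hil (G × I')) (g, q) =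
      ∑ i ∈ s, F i (g, q) := by
    intro s F
    rw [lp.coeFn_sum]
    simp
  rw [h1, Finset.sum_eq_single q]
  · rw [ContinuousLinearMap.sum_apply, h2]
    refine Finset.sum_congr rfl fun k _ => ?_
    rw [ContinuousLinearMap.smul_apply, lp.coeFn_smul, Pi.smul_apply, Ee_apply, if_pos rfl,
      smul_eq_mul]
  · intro b _ hb
    rw [ContinuousLinearMap.sum_apply, h2]
    refine Finset.sum_eq_zero fun k _ => ?_
    rw [ContinuousLinearMap.smul_apply, lp.coeFn_smul, Pi.smul_apply, Ee_apply,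
      if_neg (Ne.symm hb), smul_zero]
  · intro h
    exact absurd (Finset.mem_univ _) h

theorem Rt_Fo [Fintype I] [DecidableEq I] (a : G) (p : I' → K → I) (c : I' → K → ℂ)
    (x : Hil (G × I)) : Rt a (Fo p c x) = Fo p c (Rt a x) := by
  apply Hil.ext'
  rintro ⟨g, q⟩
  rw [Rt_apply, Fo_apply, Fo_apply]
  refine Finset.sum_congr rfl fun k _ => ?_
  rw [Rt_apply]

end fo

theorem lp_add_apply {J : Type*} (x y : Hil J) (p : J) : (x + y : Hil J) p = x p + y p := by
  rw [lp.coeFn_add, Pi.add_apply]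

theorem lp_sub_apply {J : Type*} (x y : Hil J) (p : J) : (x - y : Hil J) p = x p - y p := by
  rw [lp.coeFn_sub, Pi.sub_apply]

theorem lp_smul_apply {J : Type*} (c : ℂ) (x : Hil J) (p : J) : (c • x : Hil J) p = c * x p := by
  rw [lp.coeFn_smul, Pi.smul_apply, smul_eq_mul]

theorem lp_neg_apply {J : Type*} (x : Hil J) (p : J) : (-x : Hil J) p = - x p := by
  rw [lp.coeFn_neg, Pi.neg_apply]

theorem lp_zero_apply {J : Type*} (p : J) : (0 : Hil J) p = 0 := by
  rw [lp.coeFn_zero, Pi.zero_apply]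

variable {V : Type*} [DecidableEq V] [Fintype V] {G : Type*} [Group G]

/-- Pairs of sets of vertices. -/
abbrev I2 (V : Type*) : Type _ := Finset V × Finset V

/-- `U` is a simplex of the full subcomplex on `S`. -/
def okU (Γ : SimpleGraph V) (S U : Finset V) : Prop := U ⊆ S ∧ Γ.IsClique (U : Set V)

/-- The sign of a set. -/
def chi (T : Finset V) : ℂ := (-1) ^ T.card

theorem chi_sq (T : Finset V) : chi T * chi T = 1 := by
  unfold chi
  rw [← pow_add, ← two_mul, pow_mul]
  simp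

theorem chi_insert {v : V} {T : Finset V} (h : v ∉ T) : chi (insert v T) = - chi T := by
  unfold chi
  rw [Finset.card_insert_of_notMem h, pow_succ]
  ring

variable (ε : Sgn V) (Γ : SimpleGraph V) (S : Finset V)

/-- The boundary in the first set. -/
def D1 : Hil (G × I2 V) →L[ℂ] Hil (G × I2 V) :=
  Fo (K := V) (fun q v => (insert v q.1, q.2)) (fun q v => if v ∈ q.2 \ q.1 then ε.ε v q.1 else 0)

open Classical in
/-- The coboundary in the second set. -/
def D2 : Hil (G × I2 V) →L[ℂ] Hil (G × I2 V) :=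
  Fo (K := V) (fun q u => (q.1, q.2.erase u))
    (fun q u => if u ∈ q.2 \ q.1 ∧ okU Γ S q.2 then chi q.1 * ε.ε u (q.2.erase u) else 0)

theorem D1_apply (x : Hil (G × I2 V)) (g : G) (T U : Finset V) :
    D1 ε x (g, (T, U)) = ∑ v ∈ U \ T, ε.ε v T * x (g, (insert v T, U)) := by
  unfold D1
  rw [Fo_apply]
  simp only [ite_mul, zero_mul]
  rw [← Finset.sum_filter]
  refine Finset.sum_congr ?_ fun _ _ => rfl
  ext v
  simp

open Classical in
theorem D2_apply (x : Hil (G × I2 V)) (g : G) (T U : Finset V) :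
    D2 ε Γ S x (g, (T, U)) = if okU Γ S U then
      chi T * ∑ u ∈ U \ T, ε.ε u (U.erase u) * x (g, (T, U.erase u)) else 0 := by
  unfold D2
  rw [Fo_apply]
  split_ifs with h
  · simp only [h, and_true, ite_mul, zero_mul]
    rw [← Finset.sum_filter, Finset.mul_sum]
    refine Finset.sum_congr ?_ fun _ _ => by ring
    ext v
    simp
  · refine Finset.sum_eq_zero fun u _ => ?_
    simp [h]

theorem D2_apply_ok {U : Finset V} (h : okU Γ S U) (x : Hil (G × I2 V)) (g : G) (T : Finset V) :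
    D2 ε Γ S x (g, (T, U)) =
      chi T * ∑ u ∈ U \ T, ε.ε u (U.erase u) * x (g, (T, U.erase u)) := by
  classical
  rw [D2_apply, if_pos h]

theorem D2_apply_not {U : Finset V} (h : ¬ okU Γ S U) (x : Hil (G × I2 V)) (g : G)
    (T : Finset V) : D2 ε Γ S x (g, (T, U)) = 0 := by
  classical
  rw [D2_apply, if_neg h]

/-- Sums over ordered pairs that are antisymmetric vanish. -/
theorem sum_pairs_zero (A : Finset V) (F : V → V → ℂ)
    (h : ∀ a ∈ A, ∀ b ∈ A, a ≠ b → F a b = - F b a) :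
    ∑ a ∈ A, ∑ b ∈ A.erase a, F a b = 0 := by
  have h1 : ∑ a ∈ A, ∑ b ∈ A.erase a, F a b = ∑ b ∈ A, ∑ a ∈ A.erase b, F a b := by
    apply Finset.sum_comm'
    intro a b
    simp only [Finset.mem_erase]
    tauto
  have h2 : ∑ b ∈ A, ∑ a ∈ A.erase b, F a b = - ∑ b ∈ A, ∑ a ∈ A.erase b, F b a := by
    rw [← Finset.sum_neg_distrib]
    refine Finset.sum_congr rfl fun b hb => ?_
    rw [← Finset.sum_neg_distrib]
    refine Finset.sum_congr rfl fun a ha => ?_
    rw [Finset.mem_erase] at ha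
    exact h a ha.2 b hb ha.1
  rw [h2] at h1
  have h3 : (2 : ℂ) * ∑ a ∈ A, ∑ b ∈ A.erase a, F a b = 0 := by
    rw [two_mul]
    nth_rw 2 [h1]
    ring
  rcases mul_eq_zero.mp h3 with h | h
  · norm_num at h
  · exact h

theorem D1_D1 (x : Hil (G × I2 V)) : D1 ε (D1 ε x) = 0 := by
  apply Hil.ext'
  rintro ⟨g, T, U⟩
  rw [D1_apply, lp_zero_apply]
  have h1 : ∀ v ∈ U \ T, ε.ε v T * D1 ε x (g, (insert v T, U)) =
      ∑ w ∈ (U \ T).erase v, ε.ε v T * (ε.ε w (insert v T) *
        x (g, (insert w (insert v T), U))) := by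
    intro v hv
    rw [D1_apply, Finset.mul_sum, Finset.sdiff_insert]
  rw [Finset.sum_congr rfl h1]
  apply sum_pairs_zero (U \ T) (fun v w => ε.ε v T * (ε.ε w (insert v T) *
    x (g, (insert w (insert v T), U))))
  intro v hv w hw hvw
  rw [Finset.mem_sdiff] at hv hw
  rw [Finset.insert_comm w v T, ← mul_assoc, ← mul_assoc,
    ε.anti w v T (Ne.symm hvw) hw.2 hv.2]
  ring

theorem D2_D2 (x : Hil (G × I2 V)) : D2 ε Γ S (D2 ε Γ S x) = 0 := by
  apply Hil.ext'
  rintro ⟨g, T, U⟩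
  rw [lp_zero_apply]
  by_cases hU : okU Γ S U
  · rw [D2_apply_ok _ _ _ hU]
    have h1 : ∀ u ∈ U \ T, ε.ε u (U.erase u) * D2 ε Γ S x (g, (T, U.erase u)) =
        ∑ w ∈ (U \ T).erase u, chi T * (ε.ε u (U.erase u) * (ε.ε w ((U.erase u).erase w) *
          x (g, (T, (U.erase u).erase w)))) := by
      intro u hu
      rw [D2_apply_ok _ _ _ ⟨(Finset.erase_subset _ _).trans hU.1,
        hU.2.subset (by simp)⟩, Finset.mul_sum, Finset.mul_sum]
      rw [Finset.erase_sdiff_comm]
      refine Finset.sum_congr rfl fun w _ => by ring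
    rw [Finset.sum_congr rfl h1, sum_pairs_zero (U \ T), mul_zero]
    intro u hu w hw huw
    rw [Finset.mem_sdiff] at hu hw
    set R := (U.erase u).erase w with hR
    have hR' : (U.erase w).erase u = R := by rw [hR, Finset.erase_right_comm]
    have huR : u ∉ R := by rw [hR]; simp
    have hwR : w ∉ R := by rw [hR]; simp
    have e1 : U.erase u = insert w R := by
      rw [hR, Finset.insert_erase (Finset.mem_erase.mpr ⟨Ne.symm huw, hw.1⟩)]
    have e2 : U.erase w = insert u R := by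
      rw [← hR', Finset.insert_erase (Finset.mem_erase.mpr ⟨huw, hu.1⟩)]
    rw [hR', e1, e2]
    have := ε.anti u w R huw huR hwR
    rw [show chi T * (ε.ε u (insert w R) * (ε.ε w R * x (g, (T, R)))) =
      chi T * (ε.ε w R * ε.ε u (insert w R)) * x (g, (T, R)) by ring, this]
    ring
  · rw [D2_apply_not _ _ _ hU]

theorem D1_D2 (x : Hil (G × I2 V)) : D1 ε (D2 ε Γ S x) = - D2 ε Γ S (D1 ε x) := by
  apply Hil.ext'
  rintro ⟨g, T, U⟩
  rw [lp_neg_apply, D1_apply]
  by_cases hU : okU Γ S U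
  · rw [D2_apply_ok _ _ _ hU]
    have h1 : ∀ v ∈ U \ T, ε.ε v T * D2 ε Γ S x (g, (insert v T, U)) =
        ∑ u ∈ (U \ T).erase v, - (chi T * (ε.ε v T * (ε.ε u (U.erase u) *
          x (g, (insert v T, U.erase u))))) := by
      intro v hv
      rw [Finset.mem_sdiff] at hv
      rw [D2_apply_ok _ _ _ hU, chi_insert hv.2, Finset.mul_sum, Finset.mul_sum,
        Finset.sdiff_insert]
      refine Finset.sum_congr rfl fun u _ => by ring
    rw [Finset.sum_congr rfl h1]
    have h2 : ∀ u ∈ U \ T, ε.ε u (U.erase u) * D1 ε x (g, (T, U.erase u)) =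
        ∑ v ∈ (U \ T).erase u, (ε.ε u (U.erase u) * (ε.ε v T *
          x (g, (insert v T, U.erase u)))) := by
      intro u hu
      rw [D1_apply, Finset.mul_sum, Finset.erase_sdiff_comm]
    rw [Finset.sum_congr rfl h2, Finset.mul_sum, ← Finset.sum_neg_distrib]
    have h3 : ∀ u ∈ U \ T, -(chi T * ∑ v ∈ (U \ T).erase u, (ε.ε u (U.erase u) * (ε.ε v T *
          x (g, (insert v T, U.erase u))))) = ∑ v ∈ (U \ T).erase u,
          - (chi T * (ε.ε v T * (ε.ε u (U.erase u) * x (g, (insert v T, U.erase u))))) := by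
      intro u _
      rw [Finset.mul_sum, ← Finset.sum_neg_distrib]
      refine Finset.sum_congr rfl fun v _ => by ring
    rw [Finset.sum_congr rfl h3]
    apply Finset.sum_comm'
    intro v u
    simp only [Finset.mem_erase]
    tauto
  · rw [D2_apply_not _ _ _ hU, neg_zero]
    refine Finset.sum_eq_zero fun v _ => ?_
    rw [D2_apply_not _ _ _ hU, mul_zero]

/-- The total differential. -/
def DT : Hil (G × I2 V) →L[ℂ] Hil (G × I2 V) := D1 ε + D2 ε Γ S

theorem DT_apply (x : Hil (G × I2 V)) : DT ε Γ S x = D1 ε x + D2 ε Γ S x := rfl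

theorem DT_DT (x : Hil (G × I2 V)) : DT ε Γ S (DT ε Γ S x) = 0 := by
  rw [DT_apply, DT_apply, map_add, map_add, D1_D1, D2_D2, D1_D2]
  abel

/-- The total chains of degree `i`. -/
def TC (s : V → G) (n : ℕ) (i : ℤ) : Submodule ℂ (Hil (G × I2 V)) where
  carrier := {x | (∀ g T U, ¬ (T ⊆ U ∧ okU Γ S U ∧ (T.card : ℤ) + n - U.card = i) →
      x (g, (T, U)) = 0) ∧ ∀ g T U, ∀ t ∈ T, x (g * s t, (T, U)) = - x (g, (T, U))}
  zero_mem' := by
    constructor
    · intro g T U _; simp
    · intro g T U t _; simp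
  add_mem' := by
    rintro x y ⟨hx1, hx2⟩ ⟨hy1, hy2⟩
    constructor
    · intro g T U h
      rw [lp_add_apply, hx1 g T U h, hy1 g T U h, add_zero]
    · intro g T U t ht
      rw [lp_add_apply, lp_add_apply, hx2 g T U t ht, hy2 g T U t ht]
      ring
  smul_mem' := by
    rintro c x ⟨hx1, hx2⟩
    constructor
    · intro g T U h
      rw [lp_smul_apply, hx1 g T U h, mul_zero]
    · intro g T U t ht
      rw [lp_smul_apply, lp_smul_apply, hx2 g T U t ht]
      ring

variable {Γ S} {s : V → G} {n : ℕ}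

theorem mem_TC {i : ℤ} {x : Hil (G × I2 V)} : x ∈ TC Γ S s n i ↔
    (∀ g T U, ¬ (T ⊆ U ∧ okU Γ S U ∧ (T.card : ℤ) + n - U.card = i) →
      x (g, (T, U)) = 0) ∧ ∀ g T U, ∀ t ∈ T, x (g * s t, (T, U)) = - x (g, (T, U)) := Iff.rfl

theorem D1_mem {i : ℤ} {x : Hil (G × I2 V)} (hx : x ∈ TC Γ S s n (i + 1)) :
    D1 ε x ∈ TC Γ S s n i := by
  rw [mem_TC] at hx ⊢
  constructor
  · intro g T U h
    rw [D1_apply]
    refine Finset.sum_eq_zero fun v hv => ?_
    rw [Finset.mem_sdiff] at hv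
    rw [hx.1, mul_zero]
    rintro ⟨h1, h2, h3⟩
    rw [Finset.card_insert_of_notMem hv.2] at h3
    push_cast at h3
    exact h ⟨(Finset.subset_insert _ _).trans h1, h2, by linarith⟩
  · intro g T U t ht
    rw [D1_apply, D1_apply, ← Finset.sum_neg_distrib]
    refine Finset.sum_congr rfl fun v _ => ?_
    rw [hx.2 _ _ _ _ (Finset.mem_insert_of_mem ht)]
    ring

theorem D2_mem {i : ℤ} {x : Hil (G × I2 V)} (hx : x ∈ TC Γ S s n (i + 1)) :
    D2 ε Γ S x ∈ TC Γ S s n i := by
  rw [mem_TC] at hx ⊢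
  constructor
  · intro g T U h
    by_cases hU : okU Γ S U
    · rw [D2_apply_ok _ _ _ hU]
      rw [Finset.sum_eq_zero, mul_zero]
      intro u hu
      rw [Finset.mem_sdiff] at hu
      rw [hx.1, mul_zero]
      rintro ⟨h1, h2, h3⟩
      have hc := Finset.card_erase_add_one hu.1
      have hc' : ((U.erase u).card : ℤ) + 1 = U.card := by exact_mod_cast hc
      exact h ⟨h1.trans (Finset.erase_subset _ _), hU, by linarith⟩
    · rw [D2_apply_not _ _ _ hU]
  · intro g T U t ht
    by_cases hU : okU Γ S U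
    · rw [D2_apply_ok _ _ _ hU, D2_apply_ok _ _ _ hU, ← mul_neg, ← Finset.sum_neg_distrib]
      congr 1
      refine Finset.sum_congr rfl fun u _ => ?_
      rw [hx.2 _ _ _ _ ht]
      ring
    · rw [D2_apply_not _ _ _ hU, D2_apply_not _ _ _ hU, neg_zero]

theorem DT_mem {i : ℤ} {x : Hil (G × I2 V)} (hx : x ∈ TC Γ S s n (i + 1)) :
    DT ε Γ S x ∈ TC Γ S s n i := by
  rw [DT_apply]
  exact Submodule.add_mem _ (D1_mem ε hx) (D2_mem ε hx)

/-- The projection to the cubical chains given by the cochain `o`. -/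
def pc (o : Finset V → ℂ) : Hil (G × I2 V) →L[ℂ] Hil (G × Finset V) :=
  Fo (K := Finset V) (fun T U => (T, U)) (fun _ U => o U)

theorem pc_apply (o : Finset V → ℂ) (x : Hil (G × I2 V)) (g : G) (T : Finset V) :
    pc o x (g, T) = ∑ U, o U * x (g, (T, U)) := by
  unfold pc
  rw [Fo_apply]

theorem pc_mem {o : Finset V → ℂ} (ho : ∀ U, o U ≠ 0 → U.card = n) {i : ℤ} {x : Hil (G × I2 V)}
    (hx : x ∈ TC Γ S s n i) : pc o x ∈ Cc Γ s S i := by
  rw [mem_Cc]
  rw [mem_TC] at hx
  constructor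
  · intro g T h
    rw [pc_apply]
    refine Finset.sum_eq_zero fun U _ => ?_
    by_cases h0 : o U = 0
    · rw [h0, zero_mul]
    · rw [hx.1, mul_zero]
      rintro ⟨h1, h2, h3⟩
      rw [ho U h0] at h3
      exact h ⟨h1.trans h2.1, h2.2.subset (by exact_mod_cast h1), by linarith⟩
  · intro g T t ht
    rw [pc_apply, pc_apply, ← Finset.sum_neg_distrib]
    refine Finset.sum_congr rfl fun U _ => ?_
    rw [hx.2 _ _ _ _ ht]
    ring

theorem pc_D1 {o : Finset V → ℂ} {i : ℤ} {x : Hil (G × I2 V)}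
    (hx : x ∈ TC Γ S s n i) : pc o (D1 ε x) = Dd ε S (pc o x) := by
  rw [mem_TC] at hx
  apply Hil.ext'
  rintro ⟨g, T⟩
  rw [pc_apply, Dd_apply]
  have h1 : ∀ U, o U * D1 ε x (g, (T, U)) = ∑ v ∈ S \ T, o U * (ε.ε v T *
      x (g, (insert v T, U))) := by
    intro U
    rw [D1_apply, Finset.mul_sum]
    by_cases hU : U ⊆ S
    · apply Finset.sum_subset (Finset.sdiff_subset_sdiff hU (le_refl _))
      intro v hv hv'
      rw [Finset.mem_sdiff] at hv hv'
      rw [hx.1, mul_zero, mul_zero]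
      rintro ⟨h1, _, _⟩
      exact hv' ⟨h1 (Finset.mem_insert_self _ _), hv.2⟩
    · rw [Finset.sum_eq_zero, Finset.sum_eq_zero]
      · intro v _
        rw [hx.1, mul_zero, mul_zero]
        rintro ⟨_, h2, _⟩
        exact hU h2.1
      · intro v _
        rw [hx.1, mul_zero, mul_zero]
        rintro ⟨_, h2, _⟩
        exact hU h2.1
  rw [Finset.sum_congr rfl fun U _ => h1 U, Finset.sum_comm]
  refine Finset.sum_congr rfl fun v _ => ?_
  rw [pc_apply, Finset.mul_sum]
  refine Finset.sum_congr rfl fun U _ => by ring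

theorem pc_D2 {o : Finset V → ℂ} (ho : ∀ U, o U ≠ 0 → okU Γ S U)
    (hb : ∀ U', ∑ u ∈ Finset.univ \ U', ε.ε u U' * o (insert u U') = 0)
    {i : ℤ} {x : Hil (G × I2 V)} (hx : x ∈ TC Γ S s n i) : pc o (D2 ε Γ S x) = 0 := by
  rw [mem_TC] at hx
  apply Hil.ext'
  rintro ⟨g, T⟩
  rw [pc_apply, lp_zero_apply]
  have h1 : ∀ U, o U * D2 ε Γ S x (g, (T, U)) = ∑ u ∈ U, chi T * (o U * ε.ε u (U.erase u) *
      x (g, (T, U.erase u))) := by
    intro U
    by_cases h0 : o U = 0
    · rw [h0]; simp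
    · rw [D2_apply_ok _ _ _ (ho U h0), Finset.mul_sum, Finset.mul_sum]
      rw [← Finset.sum_subset (Finset.sdiff_subset : U \ T ⊆ U)]
      · refine Finset.sum_congr rfl fun u _ => by ring
      · intro u hu hu'
        rw [hx.1, mul_zero, mul_zero]
        rintro ⟨h1, _, _⟩
        apply hu'
        rw [Finset.mem_sdiff]
        exact ⟨hu, fun h => Finset.notMem_erase u U (h1 h)⟩
  rw [Finset.sum_congr rfl fun U _ => h1 U]
  have h2 : ∑ U : Finset V, ∑ u ∈ U, chi T * (o U * ε.ε u (U.erase u) *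
      x (g, (T, U.erase u))) = ∑ U' : Finset V, ∑ u ∈ Finset.univ \ U',
        chi T * (o (insert u U') * ε.ε u U' * x (g, (T, U'))) := by
    rw [Finset.sum_sigma', Finset.sum_sigma']
    refine Finset.sum_nbij' (fun p => ⟨p.1.erase p.2, p.2⟩) (fun p => ⟨insert p.2 p.1, p.2⟩)
      ?_ ?_ ?_ ?_ ?_
    · rintro ⟨U, u⟩ h
      simp
    · rintro ⟨U, u⟩ h
      simp
    · rintro ⟨U, u⟩ h
      simp only [Finset.mem_sigma, Finset.mem_univ, true_and] at h
      simp [Finset.insert_erase h]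
    · rintro ⟨U, u⟩ h
      simp only [Finset.mem_sigma, Finset.mem_univ, true_and, Finset.mem_sdiff] at h
      simp [Finset.erase_insert h]
    · rintro ⟨U, u⟩ h
      simp only [Finset.mem_sigma, Finset.mem_univ, true_and] at h
      simp [Finset.insert_erase h]
  rw [h2]
  refine Finset.sum_eq_zero fun U' _ => ?_
  have h3 := hb U'
  have h4 : ∑ u ∈ Finset.univ \ U', chi T * (o (insert u U') * ε.ε u U' * x (g, (T, U'))) =
      chi T * x (g, (T, U')) * ∑ u ∈ Finset.univ \ U', ε.ε u U' * o (insert u U') := by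
    rw [Finset.mul_sum]
    refine Finset.sum_congr rfl fun u _ => by ring
  rw [h4, h3, mul_zero]

theorem pc_DT {o : Finset V → ℂ} (ho : ∀ U, o U ≠ 0 → okU Γ S U)
    (hb : ∀ U', ∑ u ∈ Finset.univ \ U', ε.ε u U' * o (insert u U') = 0)
    {i : ℤ} {x : Hil (G × I2 V)} (hx : x ∈ TC Γ S s n i) :
    pc o (DT ε Γ S x) = Dd ε S (pc o x) := by
  rw [DT_apply, map_add, pc_D1 ε hx, pc_D2 ε ho hb hx, add_zero]

end

end Pool.Agent.Sph.H30
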