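import Pool.Agent.Helper30_Dua.Hom

/-!
# Poincaré duality for homology sphere nerves: perturbation
-/

namespace Pool.Agent.Sph.H30

open Pool.Agent.Helper30L2
open scoped ENNReal InnerProductSpace

set_option linter.unusedSectionVars false

noncomputable section

variable {V : Type*} [DecidableEq V] [Fintype V] {G : Type*} [Group G]
variable {ε : Sgn V} {s : V → G} {Γ : SimpleGraph V} {S : Finset V} {n : ℕ}
variable {H K : Hil (G × I2 V) →L[ℂ] Hil (G × I2 V)}

/-- The perturbation. -/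
def Np (ε : Sgn V) (Γ : SimpleGraph V) (S : Finset V)
    (H : Hil (G × I2 V) →L[ℂ] Hil (G × I2 V)) : Hil (G × I2 V) →L[ℂ] Hil (G × I2 V) :=
  -(H.comp (D2 ε Γ S) + (D2 ε Γ S).comp H)

theorem Np_apply (x : Hil (G × I2 V)) :
    Np ε Γ S H x = -(H (D2 ε Γ S x) + D2 ε Γ S (H x)) := rfl

theorem D2_mem' {i : ℤ} {x : Hil (G × I2 V)} (hx : x ∈ TC Γ S s n i) :
    D2 ε Γ S x ∈ TC Γ S s n (i - 1) := D2_mem ε (by rwa [sub_add_cancel])

theorem DT_mem' {i : ℤ} {x : Hil (G × I2 V)} (hx : x ∈ TC Γ S s n i) :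
    DT ε Γ S x ∈ TC Γ S s n (i - 1) := DT_mem ε (by rwa [sub_add_cancel])

theorem Np_mem (h : HK ε Γ S s n Finset.univ H K) {i : ℤ} {x : Hil (G × I2 V)}
    (hx : x ∈ TC Γ S s n i) : Np ε Γ S H x ∈ TC Γ S s n i := by
  rw [Np_apply]
  refine Submodule.neg_mem _ (Submodule.add_mem _ ?_ (D2_mem ε (h.memH i x hx)))
  have := h.memH _ _ (D2_mem' (ε := ε) hx)
  rwa [sub_add_cancel] at this

theorem step_eq (h : HK ε Γ S s n Finset.univ H K) {i : ℤ} {x : Hil (G × I2 V)}
    (hx : x ∈ TC Γ S s n i) (hd : DT ε Γ S x = 0) :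
    x - DT ε Γ S (H x) = K x + Np ε Γ S H x := by
  have h1 := h.hom i x hx
  have h2 : D1 ε x = - D2 ε Γ S x := by
    rw [DT_apply] at hd
    exact eq_neg_of_add_eq_zero_left hd
  rw [h2, map_neg] at h1
  rw [DT_apply, Np_apply]
  have h3 : D1 ε (H x) = x + H (D2 ε Γ S x) - K x := by
    nth_rw 2 [← h1]
    abel
  rw [h3]
  abel

/-- A total chain that vanishes at all pairs with nonempty first set is determined by the rest. -/
theorem ext_empty {i : ℤ} {x y : Hil (G × I2 V)} (hx : x ∈ TC Γ S s n i) (hy : y ∈ TC Γ S s n i)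
    (h0 : ∀ g U, x (g, (∅, U)) = y (g, (∅, U)))
    (h1 : ∀ g T U, T.Nonempty → T ⊆ U → x (g, (T, U)) = y (g, (T, U))) : x = y := by
  apply Hil.ext'
  rintro ⟨g, T, U⟩
  rcases T.eq_empty_or_nonempty with rfl | hT
  · exact h0 g U
  · by_cases hTU : T ⊆ U
    · exact h1 g T U hT hTU
    · rw [(mem_TC.mp hx).1 _ _ _ (fun h => hTU h.1), (mem_TC.mp hy).1 _ _ _ (fun h => hTU h.1)]

theorem K_Np (h : HK ε Γ S s n Finset.univ H K) {i : ℤ} {x : Hil (G × I2 V)}
    (hx : x ∈ TC Γ S s n i) : K (Np ε Γ S H x) = 0 := by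
  have hN := Np_mem h hx
  apply ext_empty (h.memK _ _ hN) (Submodule.zero_mem _)
  · intro g U
    rw [lp_zero_apply]
    apply h.locK
    intro g'
    rw [Np_apply, lp_neg_apply, lp_add_apply, h.H0]
    by_cases hU : okU Γ S U
    · rw [D2_apply_ok _ _ _ hU, Finset.sum_eq_zero]
      · simp
      · intro u _
        rw [h.H0, mul_zero]
    · rw [D2_apply_not _ _ _ hU]
      simp
  · rintro g T U ⟨t, ht⟩ hTU
    rw [lp_zero_apply]
    exact h.supp _ _ hN g T U ⟨t, Finset.mem_univ _, ht⟩ hTU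

theorem K_K (h : HK ε Γ S s n Finset.univ H K) {i : ℤ} {x : Hil (G × I2 V)}
    (hx : x ∈ TC Γ S s n i) : K (K x) = K x := by
  have hK := h.memK _ _ hx
  apply ext_empty (h.memK _ _ hK) hK
  · intro g U
    apply h.fix
    intro u hu g'
    exact h.inv _ _ hx g' U u (Finset.mem_univ _) hu
  · rintro g T U ⟨t, ht⟩ hTU
    rw [h.supp _ _ hK g T U ⟨t, Finset.mem_univ _, ht⟩ hTU,
      h.supp _ _ hx g T U ⟨t, Finset.mem_univ _, ht⟩ hTU]

theorem Np_pow_mem (h : HK ε Γ S s n Finset.univ H K) {i : ℤ} {x : Hil (G × I2 V)}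
    (hx : x ∈ TC Γ S s n i) (m : ℕ) : (Np ε Γ S H ^ m) x ∈ TC Γ S s n i := by
  induction m with
  | zero => simpa using hx
  | succ m ih =>
    rw [pow_succ']
    exact Np_mem h ih

theorem Np_pow_zero (h : HK ε Γ S s n Finset.univ H K) (x : Hil (G × I2 V)) (m : ℕ) :
    ∀ g T U, U.card < m → ((Np ε Γ S H ^ m) x) (g, (T, U)) = 0 := by
  induction m with
  | zero =>
    intro g T U hU
    exact absurd hU (Nat.not_lt_zero _)
  | succ m ih =>
    intro g T U hU
    have e : (Np ε Γ S H ^ (m + 1)) x = Np ε Γ S H ((Np ε Γ S H ^ m) x) := by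
      rw [pow_succ']; rfl
    rw [e, Np_apply, lp_neg_apply, lp_add_apply]
    set y := (Np ε Γ S H ^ m) x with hy
    have h1 : ∀ g' T', D2 ε Γ S y (g', (T', U)) = 0 := by
      intro g' T'
      by_cases hok : okU Γ S U
      · rw [D2_apply_ok _ _ _ hok, Finset.sum_eq_zero, mul_zero]
        intro u hu
        rw [ih, mul_zero]
        have := Finset.card_erase_lt_of_mem (Finset.mem_sdiff.mp hu).1
        omega
      · rw [D2_apply_not _ _ _ hok]
    rw [h.locH _ U h1]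
    have h2 : D2 ε Γ S (H y) (g, (T, U)) = 0 := by
      by_cases hok : okU Γ S U
      · rw [D2_apply_ok _ _ _ hok, Finset.sum_eq_zero, mul_zero]
        intro u hu
        rw [h.locH, mul_zero]
        intro g' T'
        apply ih
        have := Finset.card_erase_lt_of_mem (Finset.mem_sdiff.mp hu).1
        omega
      · rw [D2_apply_not _ _ _ hok]
    rw [h2]
    simp

theorem perturb (h : HK ε Γ S s n Finset.univ H K) {i : ℤ} {x : Hil (G × I2 V)}
    (hx : x ∈ TC Γ S s n i) (hd : DT ε Γ S x = 0) (m : ℕ) :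
    ∃ ρ ∈ TC Γ S s n (i + 1), K (x - DT ε Γ S ρ) = K x ∧
      x - DT ε Γ S ρ = ∑ l ∈ Finset.range m, (Np ε Γ S H ^ l) (K x) + (Np ε Γ S H ^ m) x := by
  induction m with
  | zero =>
    refine ⟨0, Submodule.zero_mem _, ?_, ?_⟩
    · rw [map_zero, sub_zero]
    · rw [map_zero, sub_zero]
      simp
  | succ m ih =>
    obtain ⟨ρ, hρ, hK, he⟩ := ih
    set y := x - DT ε Γ S ρ with hy
    have hyT : y ∈ TC Γ S s n i := Submodule.sub_mem _ hx (DT_mem ε hρ)
    have hyd : DT ε Γ S y = 0 := by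
      rw [hy, map_sub, hd, DT_DT, sub_zero]
    have hs := step_eq h hyT hyd
    refine ⟨ρ + H y, Submodule.add_mem _ hρ (h.memH _ _ hyT), ?_, ?_⟩
    · have e1 : x - DT ε Γ S (ρ + H y) = y - DT ε Γ S (H y) := by
        rw [map_add, hy]
        abel
      rw [e1, hs, map_add, K_Np h hyT, add_zero, K_K h hyT, hK]
    · have e1 : x - DT ε Γ S (ρ + H y) = y - DT ε Γ S (H y) := by
        rw [map_add, hy]
        abel
      rw [e1, hs, hK, he, map_add, map_sum, Finset.sum_range_succ']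
      have e2 : ∀ l, Np ε Γ S H ((Np ε Γ S H ^ l) (K x)) = (Np ε Γ S H ^ (l + 1)) (K x) := by
        intro l
        rw [pow_succ']; rfl
      have e3 : Np ε Γ S H ((Np ε Γ S H ^ m) x) = (Np ε Γ S H ^ (m + 1)) x := by
        rw [pow_succ']; rfl
      rw [e3, Finset.sum_congr rfl fun l _ => e2 l]
      have e4 : (Np ε Γ S H ^ 0) (K x) = K x := by
        rw [pow_zero]; rfl
      rw [e4]
      abel

/-- Every total cycle is homologous to a cycle that is bounded by its projection. -/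
theorem bounded_rep (h : HK ε Γ S s n Finset.univ H K) : ∃ C : ℝ, 0 ≤ C ∧ ∀ (i : ℤ),
    ∀ x ∈ TC Γ S s n i, DT ε Γ S x = 0 → ∃ ρ ∈ TC Γ S s n (i + 1),
      ‖x - DT ε Γ S ρ‖ ≤ C * ‖K x‖ := by
  refine ⟨∑ l ∈ Finset.range (Fintype.card V + 1), ‖Np ε Γ S H ^ l‖,
    Finset.sum_nonneg fun _ _ => norm_nonneg _, ?_⟩
  intro i x hx hd
  obtain ⟨ρ, hρ, _, he⟩ := perturb h hx hd (Fintype.card V + 1)
  refine ⟨ρ, hρ, ?_⟩
  have h0 : (Np ε Γ S H ^ (Fintype.card V + 1)) x = 0 := by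
    apply Hil.ext'
    rintro ⟨g, T, U⟩
    rw [lp_zero_apply]
    apply Np_pow_zero h
    have := Finset.card_le_univ U
    omega
  rw [he, h0, add_zero, Finset.sum_mul]
  refine (norm_sum_le _ _).trans (Finset.sum_le_sum fun l _ => ?_)
  exact (Np ε Γ S H ^ l).le_opNorm _

end

end Pool.Agent.Sph.H30
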