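import Pool.Agent.Helper30_Dua.Per

/-!
# Poincaré duality for homology sphere nerves: invariant chains
-/

namespace Pool.Agent.Sph.H30

open Pool.Agent.Helper30L2
open scoped ENNReal InnerProductSpace

set_option linter.unusedSectionVars false

noncomputable section

variable {V : Type*} [DecidableEq V] [Fintype V] {G : Type*} [Group G]

/-- The chains that are invariant under the groups of the simplices. -/
def CP (Γ : SimpleGraph V) (s : V → G) (S : Finset V) (j : ℤ) :
    Submodule ℂ (Hil (G × Finset V)) where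
  carrier := {x | (∀ g T, ¬ OK Γ S j T → x (g, T) = 0) ∧
    ∀ g T, ∀ t ∈ T, x (g * s t, T) = x (g, T)}
  zero_mem' := by
    constructor
    · intro g T _; simp
    · intro g T t _; simp
  add_mem' := by
    rintro x y ⟨hx1, hx2⟩ ⟨hy1, hy2⟩
    constructor
    · intro g T h
      rw [lp_add_apply, hx1 g T h, hy1 g T h, add_zero]
    · intro g T t ht
      rw [lp_add_apply, lp_add_apply, hx2 g T t ht, hy2 g T t ht]
  smul_mem' := by
    rintro c x ⟨hx1, hx2⟩
    constructor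
    · intro g T h
      rw [lp_smul_apply, hx1 g T h, mul_zero]
    · intro g T t ht
      rw [lp_smul_apply, lp_smul_apply, hx2 g T t ht]

variable {ε : Sgn V} {s : V → G} {Γ : SimpleGraph V} {S : Finset V} {n : ℕ}

theorem mem_CP {j : ℤ} {x : Hil (G × Finset V)} : x ∈ CP Γ s S j ↔
    (∀ g T, ¬ OK Γ S j T → x (g, T) = 0) ∧ ∀ g T, ∀ t ∈ T, x (g * s t, T) = x (g, T) := Iff.rfl

theorem CP_closed (j : ℤ) : IsClosed (CP Γ s S j : Set (Hil (G × Finset V))) := by
  have : (CP Γ s S j : Set (Hil (G × Finset V))) =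
      (⋂ g, ⋂ T, ⋂ (_ : ¬ OK Γ S j T), {x | x (g, T) = 0}) ∩
      (⋂ g, ⋂ T, ⋂ t, ⋂ (_ : t ∈ T), {x | x (g * s t, T) = x (g, T)}) := by
    ext x
    simp only [SetLike.mem_coe, mem_CP, Set.mem_inter_iff, Set.mem_iInter, Set.mem_ofPred_eq]
  rw [this]
  apply IsClosed.inter
  · refine isClosed_iInter fun g => isClosed_iInter fun T => isClosed_iInter fun _ => ?_
    exact isClosed_eq (continuous_ev _) continuous_const
  · refine isClosed_iInter fun g => isClosed_iInter fun T => isClosed_iInter fun t =>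
      isClosed_iInter fun _ => ?_
    exact isClosed_eq (continuous_ev _) (continuous_ev _)

theorem Dd_CP (ε : Sgn V) {j : ℤ} {x : Hil (G × Finset V)} (hx : x ∈ CP Γ s S (j + 1)) :
    Dd ε S x ∈ CP Γ s S j := by
  rw [mem_CP] at hx ⊢
  constructor
  · intro g T hT
    rw [Dd_apply]
    apply Finset.sum_eq_zero
    intro v hv
    rw [Finset.mem_sdiff] at hv
    rw [hx.1 g _ (fun h => hT (OK.insert_left hv.2 h)), mul_zero]
  · intro g T t ht
    rw [Dd_apply, Dd_apply]
    refine Finset.sum_congr rfl fun v _ => ?_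
    rw [hx.2 g _ t (Finset.mem_insert_of_mem ht)]

/-- The coboundary on all functions. -/
def Jd (ε : Sgn V) : Hil (G × Finset V) →L[ℂ] Hil (G × Finset V) :=
  Fo (K := V) (fun U u => U.erase u) (fun U u => if u ∈ U then ε.ε u (U.erase u) else 0)

theorem Jd_apply (y : Hil (G × Finset V)) (g : G) (U : Finset V) :
    Jd ε y (g, U) = ∑ u ∈ U, ε.ε u (U.erase u) * y (g, U.erase u) := by
  unfold Jd
  rw [Fo_apply]
  simp only [ite_mul, zero_mul]
  rw [← Finset.sum_filter]
  refine Finset.sum_congr ?_ fun _ _ => rfl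
  ext v
  simp

theorem Jd_sg (g : G) (T : Finset V) :
    Jd ε (sg (g, T) : Hil (G × Finset V)) =
      ∑ u ∈ Finset.univ \ T, ε.ε u T • sg (g, insert u T) := by
  classical
  apply Hil.ext'
  rintro ⟨h, U⟩
  rw [Jd_apply, lp.coeFn_sum, Finset.sum_apply]
  simp only [lp_smul_apply, sg_apply, Prod.mk.injEq]
  by_cases hg : h = g
  · simp only [hg, true_and]
    rw [← Finset.sum_filter_add_sum_filter_not U (fun u => U.erase u = T)]
    rw [Finset.sum_congr (g := fun u => ε.ε u T) rfl (by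
      intro u hu
      rw [Finset.mem_filter] at hu
      rw [if_pos hu.2, hu.2, mul_one]), Finset.sum_congr (g := fun _ => (0 : ℂ))
      (s₁ := U.filter fun u => ¬ U.erase u = T) rfl (by
      intro u hu
      rw [Finset.mem_filter] at hu
      rw [if_neg hu.2, mul_zero]), Finset.sum_const_zero, add_zero]
    rw [← Finset.sum_filter_add_sum_filter_not (Finset.univ \ T) (fun u => U = insert u T)]
    rw [Finset.sum_congr (g := fun u => ε.ε u T) (s₁ := (Finset.univ \ T).filter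
      fun u => U = insert u T) rfl (by
      intro u hu
      rw [Finset.mem_filter] at hu
      rw [if_pos hu.2, mul_one]), Finset.sum_congr (g := fun _ => (0 : ℂ))
      (s₁ := (Finset.univ \ T).filter fun u => ¬ U = insert u T) rfl (by
      intro u hu
      rw [Finset.mem_filter] at hu
      rw [if_neg hu.2, mul_zero]), Finset.sum_const_zero, add_zero]
    refine Finset.sum_congr ?_ fun _ _ => rfl
    ext u
    simp only [Finset.mem_filter, Finset.mem_sdiff, Finset.mem_univ, true_and]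
    constructor
    · rintro ⟨h1, rfl⟩
      exact ⟨Finset.notMem_erase _ _, (Finset.insert_erase h1).symm⟩
    · rintro ⟨h1, rfl⟩
      exact ⟨Finset.mem_insert_self _ _, Finset.erase_insert h1⟩
  · simp [hg]

theorem inner_Jd (hre : ∀ v T, (starRingEnd ℂ) (ε.ε v T) = ε.ε v T)
    (y c : Hil (G × Finset V)) : ⟪Jd ε y, c⟫_ℂ = ⟪y, Dd ε Finset.univ c⟫_ℂ := by
  have h1 : ContinuousLinearMap.adjoint (Jd ε : Hil (G × Finset V) →L[ℂ] Hil (G × Finset V)) c =
      Dd ε Finset.univ c := by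
    apply Hil.ext'
    rintro ⟨g, T⟩
    rw [← inner_sg_left (g, T) (ContinuousLinearMap.adjoint _ c),
      ContinuousLinearMap.adjoint_inner_right, Jd_sg, sum_inner, Dd_apply]
    refine Finset.sum_congr rfl fun u _ => ?_
    rw [inner_smul_left, inner_sg_left, hre]
  rw [← h1, ContinuousLinearMap.adjoint_inner_right]

theorem Dd_univ_CP {j : ℤ} {c : Hil (G × Finset V)} (hc : c ∈ CP Γ s S j) :
    Dd ε Finset.univ c = Dd ε S c := by
  apply Hil.ext'
  rintro ⟨g, T⟩
  rw [Dd_apply, Dd_apply]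
  symm
  apply Finset.sum_subset (Finset.sdiff_subset_sdiff (Finset.subset_univ _) (le_refl _))
  intro v hv hv'
  rw [Finset.mem_sdiff] at hv hv'
  rw [hc.1, mul_zero]
  intro hOK
  exact hv' ⟨hOK.1 (Finset.mem_insert_self _ _), hv.2⟩

/-- The part with empty first set. -/
def t0 : Hil (G × I2 V) →L[ℂ] Hil (G × Finset V) :=
  Fo (K := Unit) (fun U _ => (∅, U)) (fun _ _ => 1)

theorem t0_apply (x : Hil (G × I2 V)) (g : G) (U : Finset V) :
    t0 x (g, U) = x (g, (∅, U)) := by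
  unfold t0
  rw [Fo_apply]
  simp

/-- The inclusion of the part with empty first set. -/
def i0 : Hil (G × Finset V) →L[ℂ] Hil (G × I2 V) :=
  Fo (K := Unit) (fun q _ => q.2) (fun q _ => if q.1 = ∅ then 1 else 0)

theorem i0_apply (x : Hil (G × Finset V)) (g : G) (T U : Finset V) :
    i0 x (g, (T, U)) = if T = ∅ then x (g, U) else 0 := by
  unfold i0
  rw [Fo_apply]
  simp

theorem i0_mem {j : ℤ} {w : Hil (G × Finset V)} (hw : w ∈ CP Γ s S j) :
    i0 w ∈ TC Γ S s n (n - j) := by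
  rw [mem_TC]
  constructor
  · intro g T U h
    rw [i0_apply]
    split_ifs with hT
    · subst hT
      apply hw.1
      rintro ⟨h1, h2, h3⟩
      apply h
      refine ⟨Finset.empty_subset _, ⟨h1, h2⟩, ?_⟩
      rw [Finset.card_empty, h3]
      push_cast
      ring
    · rfl
  · intro g T U t ht
    have hT : T ≠ ∅ := by
      rintro rfl
      exact absurd ht (Finset.notMem_empty _)
    rw [i0_apply, i0_apply, if_neg hT, if_neg hT, neg_zero]

theorem t0_D2_inner {j : ℤ} {c : Hil (G × Finset V)} (hc : c ∈ CP Γ s S j)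
    (x : Hil (G × I2 V)) : ⟪t0 (D2 ε Γ S x), c⟫_ℂ = ⟪Jd ε (t0 x), c⟫_ℂ := by
  rw [Hil.inner_eq, Hil.inner_eq]
  refine tsum_congr ?_
  rintro ⟨g, U⟩
  by_cases hU : okU Γ S U
  · rw [t0_apply, D2_apply_ok _ _ _ hU, Jd_apply, Finset.sdiff_empty]
    have : chi (∅ : Finset V) = 1 := by simp [chi]
    rw [this, one_mul, Finset.sum_congr rfl fun u _ => by rw [← t0_apply]]
  · have : c (g, U) = 0 := hc.1 _ _ (fun h => hU ⟨h.1, h.2.1⟩)
    rw [this, mul_zero, mul_zero]

/-- One term of the first differential. -/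
def z1 (ε : Sgn V) (v : V) : Hil (G × I2 V) →L[ℂ] Hil (G × Finset V) :=
  Fo (K := Unit) (fun U _ => ({v}, U)) (fun U _ => if v ∈ U then ε.ε v ∅ else 0)

theorem z1_apply (v : V) (x : Hil (G × I2 V)) (g : G) (U : Finset V) :
    z1 ε v x (g, U) = if v ∈ U then ε.ε v ∅ * x (g, ({v}, U)) else 0 := by
  unfold z1
  rw [Fo_apply]
  simp

theorem t0_D1_inner (hs2 : ∀ v, s v * s v = 1) {i j : ℤ} {c : Hil (G × Finset V)}
    (hc : c ∈ CP Γ s S j) {x : Hil (G × I2 V)} (hx : x ∈ TC Γ S s n i) :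
    ⟪t0 (D1 ε x), c⟫_ℂ = 0 := by
  have h1 : t0 (D1 ε x) = ∑ v, z1 ε v x := by
    apply Hil.ext'
    rintro ⟨g, U⟩
    rw [t0_apply, D1_apply, lp.coeFn_sum, Finset.sum_apply, Finset.sdiff_empty]
    simp only [z1_apply]
    rw [← Finset.sum_filter]
    simp only [insert_empty_eq]
    refine Finset.sum_congr ?_ fun _ _ => rfl
    ext v
    simp
  rw [h1, sum_inner]
  refine Finset.sum_eq_zero fun v _ => ?_
  have h2 : Rt (s v) (z1 ε v x) = - z1 ε v x := by
    apply Hil.ext'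
    rintro ⟨g, U⟩
    rw [Rt_apply, lp_neg_apply, z1_apply, z1_apply]
    split_ifs
    · rw [(mem_TC.mp hx).2 _ _ _ _ (Finset.mem_singleton_self v)]
      ring
    · rw [neg_zero]
  have h3 : ⟪z1 ε v x, Rt (s v) c⟫_ℂ = ⟪z1 ε v x, c⟫_ℂ := by
    rw [Hil.inner_eq, Hil.inner_eq]
    refine tsum_congr ?_
    rintro ⟨g, U⟩
    rw [z1_apply, Rt_apply]
    split_ifs with hU
    · rw [hc.2 g U v hU]
    · simp
  have h4 : ⟪Rt (s v) (z1 ε v x), c⟫_ℂ = ⟪z1 ε v x, Rt (s v) c⟫_ℂ := by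
    rw [inner_Rt, inv_of_sq (hs2 v)]
  rw [h2, h3, inner_neg_left] at h4
  have h5 : (2 : ℂ) * ⟪z1 ε v x, c⟫_ℂ = 0 := by
    rw [two_mul]
    nth_rw 1 [← h4]
    ring
  rcases mul_eq_zero.mp h5 with h | h
  · norm_num at h
  · exact h

variable {H K : Hil (G × I2 V) →L[ℂ] Hil (G × I2 V)}

theorem t0_K_mem (h : HK ε Γ S s n Finset.univ H K) {i : ℤ} {x : Hil (G × I2 V)}
    (hx : x ∈ TC Γ S s n i) : t0 (K x) ∈ CP Γ s S (n - i) := by
  have hK := mem_TC.mp (h.memK _ _ hx)
  rw [mem_CP]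
  constructor
  · intro g U hU
    rw [t0_apply]
    apply hK.1
    rintro ⟨_, h2, h3⟩
    apply hU
    refine ⟨h2.1, h2.2, ?_⟩
    rw [Finset.card_empty] at h3
    push_cast at h3
    linarith
  · intro g U u hu
    rw [t0_apply, t0_apply]
    exact h.inv _ _ hx g U u (Finset.mem_univ _) hu

theorem t0_K_inner (hs2 : ∀ v, s v * s v = 1) (h : HK ε Γ S s n Finset.univ H K) {i j : ℤ}
    {x : Hil (G × I2 V)} (hx : x ∈ TC Γ S s n i) {c : Hil (G × Finset V)}
    (hc : c ∈ CP Γ s S j) : ⟪t0 x, c⟫_ℂ = ⟪t0 (K x), c⟫_ℂ := by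
  have h1 := congrArg (fun z => ⟪t0 z, c⟫_ℂ) (h.hom i x hx)
  simp only [map_add, inner_add_left] at h1
  rw [t0_D1_inner hs2 hc (h.memH _ _ hx)] at h1
  have h2 : t0 (H (D1 ε x)) = (0 : Hil (G × Finset V)) := by
    apply Hil.ext'
    rintro ⟨g, U⟩
    rw [t0_apply, h.H0, lp_zero_apply]
  rw [h2, inner_zero_left, zero_add, zero_add] at h1
  exact h1.symm

theorem K_eq_i0 (h : HK ε Γ S s n Finset.univ H K) {i : ℤ} {x : Hil (G × I2 V)}
    (hx : x ∈ TC Γ S s n i) : K x = i0 (t0 (K x)) := by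
  have hK := h.memK _ _ hx
  have h1 : i0 (t0 (K x)) ∈ TC Γ S s n (n - (n - i)) := i0_mem (t0_K_mem h hx)
  rw [sub_sub_cancel] at h1
  apply ext_empty hK h1
  · intro g U
    rw [i0_apply, if_pos rfl, t0_apply]
  · rintro g T U hT hTU
    rw [i0_apply, if_neg (Finset.nonempty_iff_ne_empty.mp hT)]
    obtain ⟨t, ht⟩ := hT
    exact h.supp _ _ hx g T U ⟨t, Finset.mem_univ _, ht⟩ hTU

end

end Pool.Agent.Sph.H30
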